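import Mathlib

set_option autoImplicit false

open Set

namespace Pool.Agent.H994Z.NL

/-- An abstract system of definable sets on the real line, with the NIP property. -/
structure Sys where
  D : ∀ {α : Type} [Finite α], Set (α → ℝ) → Prop
  univ : ∀ {α : Type} [Finite α], D (Set.univ : Set (α → ℝ))
  compl : ∀ {α : Type} [Finite α] {Y : Set (α → ℝ)}, D Y → D Yᶜ
  inter : ∀ {α : Type} [Finite α] {Y Z : Set (α → ℝ)}, D Y → D Z → D (Y ∩ Z)
  relabel : ∀ {α β : Type} [Finite α] [Finite β] {Y : Set (α → ℝ)} (g : α → β), D Y →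
    D {v : β → ℝ | v ∘ g ∈ Y}
  ex : ∀ {α β : Type} [Finite α] [Finite β] {Y : Set (α ⊕ β → ℝ)}, D Y →
    D {v : α → ℝ | ∃ w : β → ℝ, Sum.elim v w ∈ Y}
  lt : D {v : Fin 2 → ℝ | v 0 < v 1}
  add : D {v : Fin 3 → ℝ | v 0 + v 1 = v 2}
  const : ∀ c : ℝ, D {v : Unit → ℝ | v () = c}
  nip : ∀ {α β : Type} [Finite α] [Finite β] {Y : Set (α ⊕ β → ℝ)}, D Y →
    ∃ N : ℕ, ∀ a : Fin N → α → ℝ, ¬ ∀ A : Set (Fin N), ∃ b : β → ℝ, ∀ i,
      (Sum.elim (a i) b ∈ Y ↔ i ∈ A)

namespace Sys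
variable (S : Sys) {α : Type} [Finite α]

theorem congr {Y Z : Set (α → ℝ)} (h : S.D Y) (e : ∀ v, v ∈ Y ↔ v ∈ Z) : S.D Z := by
  have : Y = Z := Set.ext e
  exact this ▸ h

theorem union {Y Z : Set (α → ℝ)} (h : S.D Y) (h' : S.D Z) : S.D (Y ∪ Z) :=
  S.congr (S.compl (S.inter (S.compl h) (S.compl h'))) fun v => by
    simp only [mem_compl_iff, mem_inter_iff, mem_union]; tauto

theorem iInter {J : Type} [Finite J] {Y : J → Set (α → ℝ)} (h : ∀ j, S.D (Y j)) :
    S.D {v | ∀ j, v ∈ Y j} := by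
  classical
  have := Fintype.ofFinite J
  have key : ∀ s : Finset J, S.D {v | ∀ j ∈ s, v ∈ Y j} := by
    intro s
    induction s using Finset.induction_on with
    | empty => exact S.congr S.univ fun v => by simp
    | insert j s _ ih => exact S.congr (S.inter (h j) ih) fun v => by simp
  exact S.congr (key Finset.univ) fun v => by simp

theorem lt' (i j : α) : S.D {v : α → ℝ | v i < v j} :=
  S.congr (S.relabel ![i, j] S.lt) fun v => by simp

theorem eq' (i j : α) : S.D {v : α → ℝ | v i = v j} :=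
  S.congr (S.inter (S.compl (S.lt' i j)) (S.compl (S.lt' j i))) fun v => by
    simp only [mem_inter_iff, mem_compl_iff, mem_ofPred_eq, not_lt]
    exact ⟨fun h => le_antisymm h.2 h.1, fun h => ⟨h.ge, h.le⟩⟩

theorem const' (i : α) (c : ℝ) : S.D {v : α → ℝ | v i = c} :=
  S.congr (S.relabel (fun _ => i) (S.const c)) fun v => by simp

end Sys

/-- Types coded by a definable set. -/
class Enc (S : Sys) (T : Type) where
  ι : Type
  fin : Finite ι
  enc : T → ι → ℝ
  inj : Function.Injective enc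
  rng : S.D (Set.range enc)

instance (S : Sys) (T : Type) [Enc S T] : Finite (Enc.ι S T) := Enc.fin

open Enc

instance encReal (S : Sys) : Enc S ℝ where
  ι := Unit
  fin := inferInstance
  enc x := fun _ => x
  inj _ _ h := congrFun h ()
  rng := S.congr S.univ fun v => by
    simp only [mem_univ, mem_range, true_iff]
    exact ⟨v (), rfl⟩

open Classical in
noncomputable instance encProp (S : Sys) : Enc S Prop where
  ι := Unit
  fin := inferInstance
  enc p := fun _ => if p then 1 else 0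
  inj p q h := by
    have := congrFun h ()
    by_cases hp : p <;> by_cases hq : q <;> simp_all
  rng := S.congr (S.union (S.const' () 1) (S.const' () 0)) fun v => by
    simp only [mem_union, mem_ofPred_eq, mem_range]
    constructor
    · rintro (h | h)
      · exact ⟨True, by funext u; simp [h]⟩
      · exact ⟨False, by funext u; simp [h]⟩
    · rintro ⟨p, rfl⟩
      by_cases hp : p <;> simp [hp]

instance encProd (S : Sys) (T U : Type) [Enc S T] [Enc S U] : Enc S (T × U) where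
  ι := ι S T ⊕ ι S U
  fin := inferInstance
  enc p := Sum.elim (enc p.1) (enc p.2)
  inj p q h := Prod.ext (inj (S := S) (funext fun i => congrFun h (Sum.inl i)))
    (inj (S := S) (funext fun i => congrFun h (Sum.inr i)))
  rng := S.congr (S.inter (S.relabel Sum.inl (rng (S := S) (T := T)))
      (S.relabel Sum.inr (rng (S := S) (T := U)))) fun v => by
    simp only [mem_inter_iff, mem_ofPred_eq, mem_range]
    constructor
    · rintro ⟨⟨a, ha⟩, ⟨b, hb⟩⟩
      refine ⟨(a, b), funext fun i => ?_⟩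
      cases i
      · exact congrFun ha _
      · exact congrFun hb _
    · rintro ⟨p, rfl⟩
      exact ⟨⟨p.1, rfl⟩, ⟨p.2, rfl⟩⟩

instance encPi (S : Sys) (κ T : Type) [Finite κ] [Enc S T] : Enc S (κ → T) where
  ι := κ × ι S T
  fin := inferInstance
  enc f := fun p => enc (f p.1) p.2
  inj f g h := funext fun k => inj (S := S) (funext fun i => congrFun h (k, i))
  rng := S.congr (S.iInter fun k : κ => S.relabel (fun i => (k, i)) (rng (S := S) (T := T)))
    fun v => by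
    simp only [mem_ofPred_eq, mem_range]
    constructor
    · intro h
      choose f hf using h
      exact ⟨f, funext fun p => congrFun (hf p.1) p.2⟩
    · rintro ⟨f, rfl⟩ k
      exact ⟨f k, rfl⟩

/-- Definable predicates. -/
def Df (S : Sys) {T : Type} [Enc S T] (P : T → Prop) : Prop :=
  ∃ Y : Set (ι S T → ℝ), S.D Y ∧ ∀ t, enc t ∈ Y ↔ P t

/-- Definable functions. -/
@[fun_prop]
def Dfn (S : Sys) {T U : Type} [Enc S T] [Enc S U] (f : T → U) : Prop :=
  Df S fun p : T × U => f p.1 = p.2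

section
variable {S : Sys} {T U V : Type} [Enc S T] [Enc S U] [Enc S V]

theorem Df.congr {P Q : T → Prop} (h : Df S P) (e : ∀ t, P t ↔ Q t) : Df S Q := by
  obtain ⟨Y, h1, h2⟩ := h
  exact ⟨Y, h1, fun t => (h2 t).trans (e t)⟩

theorem Df.not {P : T → Prop} (h : Df S P) : Df S fun t => ¬ P t := by
  obtain ⟨Y, h1, h2⟩ := h
  exact ⟨Yᶜ, S.compl h1, fun t => not_congr (h2 t)⟩

theorem Df.and {P Q : T → Prop} (h : Df S P) (h' : Df S Q) : Df S fun t => P t ∧ Q t := by
  obtain ⟨Y, h1, h2⟩ := h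
  obtain ⟨Z, g1, g2⟩ := h'
  exact ⟨Y ∩ Z, S.inter h1 g1, fun t => and_congr (h2 t) (g2 t)⟩

theorem Df.top : Df S fun _ : T => True := ⟨univ, S.univ, fun _ => by simp⟩

theorem Df.ex {P : T → U → Prop} (h : Df S fun p : T × U => P p.1 p.2) :
    Df S fun t => ∃ u, P t u := by
  obtain ⟨Y, h1, h2⟩ := h
  refine ⟨_, S.ex (S.inter h1 (S.relabel Sum.inr (rng (S := S) (T := U)))), fun t => ?_⟩
  constructor
  · rintro ⟨w, hw, u, hu⟩
    have : enc u = w := hu
    subst this
    exact ⟨u, (h2 (t, u)).mp hw⟩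
  · rintro ⟨u, hu⟩
    exact ⟨enc u, (h2 (t, u)).mpr hu, u, rfl⟩

theorem Df.str {P : U → Prop} (h : Df S P) (f : T → U) (g : ι S U → ι S T)
    (e : ∀ t, enc (f t) = enc t ∘ g) : Df S fun t => P (f t) := by
  obtain ⟨Y, h1, h2⟩ := h
  exact ⟨_, S.relabel g h1, fun t => by beta_reduce; rw [← h2, e]; rfl⟩

theorem Df.all_fin {J : Type} [Finite J] {P : J → T → Prop} (h : ∀ j, Df S (P j)) :
    Df S fun t => ∀ j, P j t := by
  choose Y h1 h2 using h
  exact ⟨_, S.iInter h1, fun t => forall_congr' fun j => h2 j t⟩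

theorem Dfn.of_str (f : T → U) (g : ι S U → ι S T) (e : ∀ t, enc (f t) = enc t ∘ g) :
    Dfn S f := by
  refine ⟨_, S.iInter fun j : ι S U => S.eq' (α := ι S T ⊕ ι S U) (Sum.inl (g j)) (Sum.inr j),
    fun p => ?_⟩
  beta_reduce
  rw [← (inj (S := S) (T := U)).eq_iff, e, funext_iff]
  rfl

@[fun_prop]
theorem Dfn.id : Dfn S fun t : T => t := Dfn.of_str _ (fun i => i) fun _ => rfl

@[fun_prop]
theorem Dfn.const (u : U) : Dfn S fun _ : T => u := by
  refine ⟨_, S.iInter fun j : ι S U => S.const' (α := ι S T ⊕ ι S U) (Sum.inr j) (enc u j),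
    fun p => ?_⟩
  beta_reduce
  rw [← (inj (S := S) (T := U)).eq_iff, eq_comm, funext_iff]
  rfl

theorem Df.comp {P : U → Prop} (h : Df S P) {f : T → U} (hf : Dfn S f) :
    Df S fun t => P (f t) :=
  (Df.ex (P := fun t u => f t = u ∧ P u)
    (Df.and hf (h.str Prod.snd Sum.inr fun _ => rfl))).congr fun t => by simp

@[fun_prop]
theorem Dfn.comp {f : U → V} {g : T → U} (hf : Dfn S f) (hg : Dfn S g) :
    Dfn S fun t => f (g t) := by
  refine (Df.ex (P := fun (p : T × V) (u : U) => g p.1 = u ∧ f u = p.2) (Df.and ?_ ?_)).congr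
    fun t => by simp
  · exact Df.str hg (fun q : (T × V) × U => (q.1.1, q.2))
      (Sum.elim (fun i => Sum.inl (Sum.inl i)) Sum.inr) fun t => funext fun i => by
        cases i <;> rfl
  · exact Df.str hf (fun q : (T × V) × U => (q.2, q.1.2))
      (Sum.elim Sum.inr (fun i => Sum.inl (Sum.inr i))) fun t => funext fun i => by
        cases i <;> rfl

theorem Dfn.fst' : Dfn S fun p : T × U => p.1 := Dfn.of_str _ Sum.inl fun _ => rfl
theorem Dfn.snd' : Dfn S fun p : T × U => p.2 := Dfn.of_str _ Sum.inr fun _ => rfl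

@[fun_prop]
theorem Dfn.fst {f : T → U × V} (h : Dfn S f) : Dfn S fun t => (f t).1 := Dfn.fst'.comp h

@[fun_prop]
theorem Dfn.snd {f : T → U × V} (h : Dfn S f) : Dfn S fun t => (f t).2 := Dfn.snd'.comp h

@[fun_prop]
theorem Dfn.prodMk {f : T → U} {g : T → V} (hf : Dfn S f) (hg : Dfn S g) :
    Dfn S fun t => (f t, g t) := by
  refine (Df.and (P := fun p : T × (U × V) => f p.1 = p.2.1) (Q := fun p => g p.1 = p.2.2)
    ?_ ?_).congr fun t => by rw [Prod.ext_iff]
  · exact Df.str hf (fun q : T × (U × V) => (q.1, q.2.1))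
      (Sum.elim Sum.inl (fun i => Sum.inr (Sum.inl i))) fun t => funext fun i => by
        cases i <;> rfl
  · exact Df.str hg (fun q : T × (U × V) => (q.1, q.2.2))
      (Sum.elim Sum.inl (fun i => Sum.inr (Sum.inr i))) fun t => funext fun i => by
        cases i <;> rfl

@[fun_prop]
theorem Dfn.apply {κ : Type} [Finite κ] (k : κ) : Dfn S fun f : κ → T => f k :=
  Dfn.of_str _ (fun i => (k, i)) fun _ => rfl

@[fun_prop]
theorem Dfn.pi {κ : Type} [Finite κ] {f : T → κ → U} (h : ∀ k, Dfn S fun t => f t k) :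
    Dfn S fun t k => f t k := by
  refine (Df.all_fin (P := fun k (p : T × (κ → U)) => f p.1 k = p.2 k) fun k => ?_).congr
    fun t => funext_iff.symm
  exact Df.str (h k) (fun q : T × (κ → U) => (q.1, q.2 k))
      (Sum.elim Sum.inl (fun i => Sum.inr (k, i))) fun t => funext fun i => by
        cases i <;> rfl

theorem Df.eq {f g : T → U} (hf : Dfn S f) (hg : Dfn S g) : Df S fun t => f t = g t :=
  Df.comp (P := fun p : U × U => p.1 = p.2) (Dfn.id (S := S) (T := U)) (hf.prodMk hg)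

theorem df_true : Df S fun p : Prop => p := by
  classical
  refine ⟨_, S.const' () 1, fun p => ?_⟩
  show (if p then (1 : ℝ) else 0) = 1 ↔ p
  by_cases hp : p <;> simp [hp]

theorem Dfn.df {P : T → Prop} (h : Dfn S P) : Df S P := Df.comp df_true h

theorem Df.dfn {P : T → Prop} (h : Df S P) : Dfn S P := by
  have h1 : Df S fun p : T × Prop => P p.1 := h.comp Dfn.fst'
  have h2 : Df S fun p : T × Prop => p.2 := Dfn.snd'.df
  exact ((h1.and h2.not).not.and (h1.not.and h2).not).congr fun p => by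
    rw [eq_iff_iff]; tauto

theorem Dfn.congr {f g : T → U} (h : Dfn S f) (e : ∀ t, f t = g t) : Dfn S g := by
  have : f = g := funext e
  exact this ▸ h

theorem Dfn.congr' {f g : T → Prop} (h : Dfn S f) (e : ∀ t, f t ↔ g t) : Dfn S g :=
  h.congr fun t => propext (e t)

@[fun_prop]
theorem Dfn.not {P : T → Prop} (h : Dfn S P) : Dfn S fun t => ¬ P t := h.df.not.dfn

@[fun_prop]
theorem Dfn.and {P Q : T → Prop} (h : Dfn S P) (h' : Dfn S Q) : Dfn S fun t => P t ∧ Q t :=
  (h.df.and h'.df).dfn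

@[fun_prop]
theorem Dfn.or {P Q : T → Prop} (h : Dfn S P) (h' : Dfn S Q) : Dfn S fun t => P t ∨ Q t :=
  (h.not.and h'.not).not.congr' fun t => by tauto

@[fun_prop]
theorem Dfn.imp {P Q : T → Prop} (h : Dfn S P) (h' : Dfn S Q) : Dfn S fun t => P t → Q t :=
  (h.and h'.not).not.congr' fun t => by tauto

@[fun_prop]
theorem Dfn.iff {P Q : T → Prop} (h : Dfn S P) (h' : Dfn S Q) : Dfn S fun t => P t ↔ Q t :=
  ((h.imp h').and (h'.imp h)).congr' fun t => by tauto

@[fun_prop]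
theorem Dfn.exists {P : T → U → Prop} (h : Dfn S fun p : T × U => P p.1 p.2) :
    Dfn S fun t => ∃ u, P t u := (Df.ex h.df).dfn

@[fun_prop]
theorem Dfn.forall {P : T → U → Prop} (h : Dfn S fun p : T × U => P p.1 p.2) :
    Dfn S fun t => ∀ u, P t u :=
  (Dfn.exists (P := fun t u => ¬ P t u) h.not).not.congr' fun t => by simp

theorem Dfn.forall_fin {J : Type} [Finite J] {P : T → J → Prop} (h : ∀ j, Dfn S fun t => P t j) :
    Dfn S fun t => ∀ j, P t j := (Df.all_fin fun j => (h j).df).dfn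

theorem Dfn.exists_fin {J : Type} [Finite J] {P : T → J → Prop} (h : ∀ j, Dfn S fun t => P t j) :
    Dfn S fun t => ∃ j, P t j :=
  (Dfn.forall_fin (P := fun t j => ¬ P t j) fun j => (h j).not).not.congr' fun t => by simp

@[fun_prop]
theorem Dfn.eq {f g : T → U} (hf : Dfn S f) (hg : Dfn S g) : Dfn S fun t => f t = g t :=
  (Df.eq hf hg).dfn

@[fun_prop]
theorem Dfn.ne {f g : T → U} (hf : Dfn S f) (hg : Dfn S g) : Dfn S fun t => f t ≠ g t :=
  (hf.eq hg).not

@[fun_prop]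
theorem Dfn.lt {f g : T → ℝ} (hf : Dfn S f) (hg : Dfn S g) : Dfn S fun t => f t < g t := by
  have : Df S fun p : ℝ × ℝ => p.1 < p.2 :=
    ⟨_, S.lt' (α := Unit ⊕ Unit) (Sum.inl ()) (Sum.inr ()), fun _ => Iff.rfl⟩
  exact (this.comp (hf.prodMk hg)).dfn

@[fun_prop]
theorem Dfn.le {f g : T → ℝ} (hf : Dfn S f) (hg : Dfn S g) : Dfn S fun t => f t ≤ g t :=
  (hg.lt hf).not.congr' fun t => by simp

@[fun_prop]
theorem Dfn.add {f g : T → ℝ} (hf : Dfn S f) (hg : Dfn S g) : Dfn S fun t => f t + g t := by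
  have : Dfn S fun p : ℝ × ℝ => p.1 + p.2 :=
    ⟨_, S.relabel (β := (Unit ⊕ Unit) ⊕ Unit)
      ![Sum.inl (Sum.inl ()), Sum.inl (Sum.inr ()), Sum.inr ()] S.add, fun _ => Iff.rfl⟩
  exact this.comp (hf.prodMk hg)

theorem Dfn.of_graph {f : T → U} (h : Dfn S fun p : T × U => f p.1 = p.2) : Dfn S f := h.df

@[fun_prop]
theorem Dfn.sub {f g : T → ℝ} (hf : Dfn S f) (hg : Dfn S g) : Dfn S fun t => f t - g t := by
  refine Dfn.of_graph (Dfn.congr' (f := fun p : T × ℝ => f p.1 = p.2 + g p.1) (by fun_prop)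
    fun p => sub_eq_iff_eq_add.symm)

@[fun_prop]
theorem Dfn.abs {f : T → ℝ} (hf : Dfn S f) : Dfn S fun t => |f t| := by
  refine Dfn.of_graph (Dfn.congr'
    (f := fun p : T × ℝ => 0 ≤ p.2 ∧ (f p.1 = p.2 ∨ f p.1 + p.2 = 0)) (by fun_prop) fun p => ?_)
  constructor
  · rintro ⟨h1, h2 | h2⟩
    · rw [h2, abs_of_nonneg h1]
    · rw [eq_neg_of_add_eq_zero_left h2, abs_neg, abs_of_nonneg h1]
  · intro h
    refine ⟨h ▸ abs_nonneg _, ?_⟩
    rcases abs_cases (f p.1) with h' | h'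
    · left; linarith [h'.1]
    · right; linarith [h'.1]

theorem Dfn.ite {P : T → Prop} [DecidablePred P] {f g : T → U} (hP : Dfn S P) (hf : Dfn S f)
    (hg : Dfn S g) : Dfn S fun t => if P t then f t else g t := by
  refine Dfn.of_graph (Dfn.congr'
    (f := fun p : T × U => (P p.1 ∧ f p.1 = p.2) ∨ (¬ P p.1 ∧ g p.1 = p.2)) (by fun_prop)
    fun p => ?_)
  by_cases h : P p.1 <;> simp [h]

/-- NIP for coded types. -/
theorem Dfn.nip {P : T → U → Prop} (h : Dfn S fun p : T × U => P p.1 p.2) :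
    ∃ N : ℕ, ∀ a : Fin N → T, ¬ ∀ A : Set (Fin N), ∃ b : U, ∀ i, (P (a i) b ↔ i ∈ A) := by
  obtain ⟨Y, h1, h2⟩ := h.df
  obtain ⟨N, hN⟩ := S.nip h1
  refine ⟨N, fun a ha => hN (fun i => enc (a i)) fun A => ?_⟩
  obtain ⟨b, hb⟩ := ha A
  exact ⟨enc b, fun i => (h2 (a i, b)).trans (hb i)⟩

theorem Dfn.of_D {α : Type} [Finite α] {Y : Set (α → ℝ)} (h : S.D Y) :
    Dfn S fun v : α → ℝ => v ∈ Y :=
  Df.dfn ⟨_, S.relabel (fun i => (i, ())) h, fun _ => Iff.rfl⟩

theorem Dfn.to_D {α : Type} [Finite α] {Y : Set (α → ℝ)} (h : Dfn S fun v : α → ℝ => v ∈ Y) :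
    S.D Y := by
  obtain ⟨Z, h1, h2⟩ := h.df
  exact S.congr (S.relabel (β := α) Prod.fst h1) fun v => h2 v

theorem Dfn.enc : Dfn S fun t : T => (enc t : ι S T → ℝ) :=
  Dfn.of_str _ Prod.fst fun _ => rfl

@[fun_prop]
theorem Dfn.ltK [LT U] [h : Fact (Dfn S fun p : U × U => p.1 < p.2)] {f g : T → U}
    (hf : Dfn S f) (hg : Dfn S g) : Dfn S fun t => f t < g t := h.out.comp (hf.prodMk hg)

@[fun_prop]
theorem Dfn.leK [LinearOrder U] [h : Fact (Dfn S fun p : U × U => p.1 < p.2)] {f g : T → U}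
    (hf : Dfn S f) (hg : Dfn S g) : Dfn S fun t => f t ≤ g t :=
  (Dfn.ltK hg hf).not.congr' fun t => by simp

@[fun_prop]
theorem Dfn.addK [Add U] [h : Fact (Dfn S fun p : U × U => p.1 + p.2)] {f g : T → U}
    (hf : Dfn S f) (hg : Dfn S g) : Dfn S fun t => f t + g t := h.out.comp (hf.prodMk hg)

@[fun_prop]
theorem Dfn.mulK [Mul U] [h : Fact (Dfn S fun p : U × U => p.1 * p.2)] {f g : T → U}
    (hf : Dfn S f) (hg : Dfn S g) : Dfn S fun t => f t * g t := h.out.comp (hf.prodMk hg)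

@[fun_prop]
theorem Dfn.subK [AddGroup U] [h : Fact (Dfn S fun p : U × U => p.1 + p.2)] {f g : T → U}
    (hf : Dfn S f) (hg : Dfn S g) : Dfn S fun t => f t - g t := by
  refine Dfn.of_graph (Dfn.congr' (f := fun p : T × U => f p.1 = p.2 + g p.1) (by fun_prop)
    fun p => sub_eq_iff_eq_add.symm)

@[fun_prop]
theorem Dfn.distK [Dist U] [h : Fact (Dfn S fun p : U × U => dist p.1 p.2)] {f g : T → U}
    (hf : Dfn S f) (hg : Dfn S g) : Dfn S fun t => dist (f t) (g t) := h.out.comp (hf.prodMk hg)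

instance : Fact (Dfn S fun p : ℝ × ℝ => dist p.1 p.2) :=
  ⟨Dfn.congr (f := fun p : ℝ × ℝ => |p.1 - p.2|) (by fun_prop) fun _ => rfl⟩

theorem dfn_of_lt {f : T → ℝ} (h : Dfn S fun p : T × ℝ => f p.1 < p.2) : Dfn S f := by
  have h' : ∀ {V : Type} [Enc S V] {a : V → T} {b : V → ℝ}, Dfn S a → Dfn S b →
      Dfn S fun v => f (a v) < b v := fun ha hb => h.comp (ha.prodMk hb)
  refine Dfn.of_graph (Dfn.congr'
    (f := fun p : T × ℝ => ¬ f p.1 < p.2 ∧ ∀ s, p.2 < s → f p.1 < s) ?_ fun p => ?_)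
  · refine h.not.and (Dfn.forall (Dfn.imp (by fun_prop) (h' (by fun_prop) (by fun_prop))))
  · constructor
    · rintro ⟨h1, h2⟩
      exact le_antisymm (le_of_forall_gt_imp_ge_of_dense fun s hs => (h2 s hs).le) (not_lt.mp h1)
    · intro h1
      rw [h1]
      exact ⟨lt_irrefl _, fun s hs => hs⟩

instance [PseudoMetricSpace T] [PseudoMetricSpace U]
    [Fact (Dfn S fun p : T × T => dist p.1 p.2)] [Fact (Dfn S fun p : U × U => dist p.1 p.2)] :
    Fact (Dfn S fun p : (T × U) × (T × U) => dist p.1 p.2) :=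
  ⟨dfn_of_lt (Dfn.congr' (f := fun p : ((T × U) × (T × U)) × ℝ =>
    dist p.1.1.1 p.1.2.1 < p.2 ∧ dist p.1.1.2 p.1.2.2 < p.2) (by fun_prop) fun p => by
      rw [Prod.dist_eq, max_lt_iff])⟩

instance {κ : Type} [Fintype κ] [PseudoMetricSpace T]
    [Fact (Dfn S fun p : T × T => dist p.1 p.2)] :
    Fact (Dfn S fun p : (κ → T) × (κ → T) => dist p.1 p.2) :=
  ⟨dfn_of_lt (Dfn.congr' (f := fun p : ((κ → T) × (κ → T)) × ℝ =>
    0 < p.2 ∧ ∀ k, dist (p.1.1 k) (p.1.2 k) < p.2)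
    (Dfn.and (by fun_prop) (Dfn.forall_fin fun k => by fun_prop)) fun p => by
      constructor
      · rintro ⟨h1, h2⟩
        exact (dist_pi_lt_iff h1).mpr h2
      · intro h
        have h1 : 0 < p.2 := dist_nonneg.trans_lt h
        exact ⟨h1, (dist_pi_lt_iff h1).mp h⟩)⟩

@[fun_prop]
theorem Dfn.update {κ : Type} [Finite κ] [DecidableEq κ] {f : T → κ → U} {g : T → U} (k : κ)
    (hf : Dfn S f) (hg : Dfn S g) : Dfn S fun t => Function.update (f t) k (g t) := by
  refine Dfn.pi fun j => ?_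
  by_cases h : j = k
  · subst h
    simpa using hg
  · simp only [Function.update_of_ne h]
    fun_prop

@[fun_prop]
theorem Dfn.cons {n : ℕ} {f : T → Fin n → U} {g : T → U}
    (hg : Dfn S g) (hf : Dfn S f) : Dfn S fun t => (Fin.cons (g t) (f t) : Fin (n + 1) → U) := by
  refine Dfn.pi fun j => ?_
  refine Fin.cases ?_ (fun i => ?_) j
  · simpa using hg
  · simp only [Fin.cons_succ]
    fun_prop

@[fun_prop]
theorem Dfn.tail {n : ℕ} {f : T → Fin (n + 1) → U}
    (hf : Dfn S f) : Dfn S fun t => (Fin.tail (f t) : Fin n → U) := by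
  refine Dfn.pi fun j => ?_
  simp only [Fin.tail]
  fun_prop

end

end Pool.Agent.H994Z.NL
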