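import Mathlib
import Pool.Agent.H994Z.NL.Calc

set_option autoImplicit false

open Set

namespace Pool.Agent.H994Z.NL

/-- The nested regions argument. -/
theorem nested {Z W : Type} (ok : Set Z → Prop) (φ : W → Z → Prop) (J0 : Set Z) (h0 : ok J0)
    (hne : ∀ J, ok J → J.Nonempty)
    (step : ∀ (I : Type) [Finite I] (J : I → Set Z), (∀ i, ok (J i)) → ∃ w, ∀ i,
      (∃ J', ok J' ∧ J' ⊆ J i ∧ ∀ z ∈ J', φ w z) ∧ (∃ J', ok J' ∧ J' ⊆ J i ∧ ∀ z ∈ J', ¬ φ w z))
    (N : ℕ) : ∃ a : Fin N → W, ∀ A : Set (Fin N), ∃ z, ∀ i, (φ (a i) z ↔ i ∈ A) := by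
  have key : ∃ a : Fin N → W, ∀ A : Set (Fin N), ∃ J, ok J ∧ ∀ z ∈ J, ∀ i,
      (φ (a i) z ↔ i ∈ A) := by
    induction N with
    | zero => exact ⟨Fin.elim0, fun A => ⟨J0, h0, fun z _ i => i.elim0⟩⟩
    | succ N ih =>
      obtain ⟨a, ha⟩ := ih
      choose J hJ hJ2 using ha
      obtain ⟨w, hw⟩ := step _ J hJ
      refine ⟨Fin.cons w a, fun A => ?_⟩
      by_cases h : (0 : Fin (N + 1)) ∈ A
      · obtain ⟨J', h1, h2, h3⟩ := (hw {i | i.succ ∈ A}).1
        refine ⟨J', h1, fun z hz i => Fin.cases ?_ (fun i => ?_) i⟩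
        · exact iff_of_true (h3 z hz) h
        · exact hJ2 _ z (h2 hz) i
      · obtain ⟨J', h1, h2, h3⟩ := (hw {i | i.succ ∈ A}).2
        refine ⟨J', h1, fun z hz i => Fin.cases ?_ (fun i => ?_) i⟩
        · exact iff_of_false (h3 z hz) h
        · exact hJ2 _ z (h2 hz) i
  obtain ⟨a, ha⟩ := key
  refine ⟨a, fun A => ?_⟩
  obtain ⟨J, h1, h2⟩ := ha A
  obtain ⟨z, hz⟩ := hne J h1
  exact ⟨z, h2 z hz⟩

/-- Nowhere dense in the order sense. -/
def ND {K : Type} [LinearOrder K] (A : Set K) : Prop :=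
  ∀ a b, a < b → ∃ c e, a ≤ c ∧ c < e ∧ e ≤ b ∧ ∀ y ∈ A, ¬ (c < y ∧ y < e)

section
variable {K : Type} [LinearOrder K]

theorem ND.mono {A B : Set K} (h : ND B) (hAB : A ⊆ B) : ND A := fun a b hab => by
  obtain ⟨c, e, h1, h2, h3, h4⟩ := h a b hab
  exact ⟨c, e, h1, h2, h3, fun y hy => h4 y (hAB hy)⟩

theorem ND.union {A B : Set K} (h : ND A) (h' : ND B) : ND (A ∪ B) := fun a b hab => by
  obtain ⟨c, e, h1, h2, h3, h4⟩ := h a b hab
  obtain ⟨c', e', g1, g2, g3, g4⟩ := h' c e h2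
  refine ⟨c', e', h1.trans g1, g2, g3.trans h3, fun y hy => ?_⟩
  rcases hy with hy | hy
  · exact fun h => h4 y hy ⟨g1.trans_lt h.1, h.2.trans_le g3⟩
  · exact g4 y hy

theorem ND.empty : ND (∅ : Set K) := fun a b hab => ⟨a, b, le_rfl, hab, le_rfl, by simp⟩

theorem ND.biUnion {I : Type} {s : Set I} (hs : s.Finite) {A : I → Set K} (h : ∀ i ∈ s, ND (A i)) :
    ND (⋃ i ∈ s, A i) := by
  induction s, hs using Set.Finite.induction_on with
  | empty => simpa using ND.empty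
  | insert _ _ ih =>
    rw [biUnion_insert]
    exact (h _ (mem_insert _ _)).union (ih fun i hi => h i (mem_insert_of_mem _ hi))

theorem ND.singleton [DenselyOrdered K] (x : K) : ND {x} := fun a b hab => by
  obtain ⟨m, h1, h2⟩ := exists_between hab
  by_cases h : x < m
  · exact ⟨m, b, h1.le, h2, le_rfl, by rintro y rfl hy; exact lt_asymm h hy.1⟩
  · exact ⟨a, m, le_rfl, h1, h2.le, by rintro y rfl hy; exact h hy.2⟩

theorem not_ND_univ [DenselyOrdered K] [Nontrivial K] : ¬ ND (univ : Set K) := fun h => by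
  obtain ⟨a, b, hab⟩ := exists_pair_lt K
  obtain ⟨c, e, -, h2, -, h4⟩ := h a b hab
  obtain ⟨m, h5⟩ := exists_between h2
  exact h4 m trivial h5

theorem exists_pos_le [Zero K] {I : Type} [Finite I] (f : I → K) (h : ∀ i, 0 < f i) (x : K)
    (hx : 0 < x) : ∃ s, 0 < s ∧ ∀ i, s ≤ f i := by
  rcases isEmpty_or_nonempty I with hI | hI
  · exact ⟨x, hx, fun i => hI.elim i⟩
  · obtain ⟨i, hi⟩ := Finite.exists_min f
    exact ⟨f i, h i, hi⟩

end

theorem ND.of_nowhereDense {Y : Set ℝ} (h : IsNowhereDense Y) : ND Y := fun a b hab => by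
  have h1 : ¬ Ioo a b ⊆ closure Y := fun hs => by
    have := interior_maximal hs isOpen_Ioo
    rw [h] at this
    exact (nonempty_Ioo.mpr hab).ne_empty (subset_empty_iff.mp this)
  obtain ⟨x, hx, hx2⟩ := not_subset.mp h1
  have h2 : Ioo a b ∩ (closure Y)ᶜ ∈ nhds x :=
    (isOpen_Ioo.inter isClosed_closure.isOpen_compl).mem_nhds ⟨hx, hx2⟩
  obtain ⟨c, e, h3, h4⟩ := mem_nhds_iff_exists_Ioo_subset.mp h2
  refine ⟨max a c, min b e, le_max_left _ _, ?_, min_le_left _ _, fun y hy hy2 => ?_⟩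
  · exact max_lt_iff.mpr ⟨lt_min_iff.mpr ⟨hab, hx.1.trans h3.2⟩,
      lt_min_iff.mpr ⟨h3.1.trans hx.2, h3.1.trans h3.2⟩⟩
  · exact (h4 ⟨(le_max_right _ _).trans_lt hy2.1, hy2.2.trans_le (min_le_right _ _)⟩).2
      (subset_closure hy)

variable {S : Sys}

/-- A definable directed union of nowhere dense sets is nowhere dense. -/
theorem ND.iUnion {K T : Type} [AddCommGroup K] [LinearOrder K] [IsOrderedAddMonoid K]
    [DenselyOrdered K] [Enc S K] [Enc S T] [Fact (Dfn S fun p : K × K => p.1 < p.2)]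
    [Fact (Dfn S fun p : K × K => p.1 + p.2)] (F : T → K → Prop)
    (hF : Dfn S fun p : T × K => F p.1 p.2) (hnd : ∀ t, ND {y | F t y})
    (hdir : ∀ (I : Type) [Finite I] (y : I → K), (∀ i, ∃ t, F t (y i)) → ∃ t, ∀ i, F t (y i)) :
    ND {y | ∃ t, F t y} := by
  intro a b hab
  by_contra hcon
  push Not at hcon
  obtain ⟨N, hN⟩ := Dfn.nip (S := S)
    (P := fun (w : T × K) (z : K) => ∃ y, F w.1 y ∧ y < z ∧ z < y + w.2) (by fun_prop)
  obtain ⟨w, hw⟩ := nested (fun J => ∃ c e, a ≤ c ∧ c < e ∧ e ≤ b ∧ J = Ioo c e)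
    (fun (w : T × K) (z : K) => ∃ y, F w.1 y ∧ y < z ∧ z < y + w.2) (Ioo a b)
    ⟨a, b, le_rfl, hab, le_rfl, rfl⟩
    (by rintro J ⟨c, e, -, h, -, rfl⟩; exact nonempty_Ioo.mpr h) (by
      intro I _ J hJ
      choose c e h1 h2 h3 h4 using hJ
      have h5 := fun i => hcon (c i) (e i) (h1 i) (h2 i) (h3 i)
      choose y hy1 hy2 hy3 using h5
      obtain ⟨t, ht⟩ := hdir I y hy1
      have h6 := fun i => hnd t (c i) (e i) (h2 i)
      choose c' e' g1 g2 g3 g4 using h6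
      have h7 := fun i => exists_between (g2 i)
      choose m m1 m2 using h7
      obtain ⟨s, hs, hs2⟩ := exists_pos_le (fun i => min (m i - c' i) (e i - y i))
        (fun i => lt_min (sub_pos.mpr (m1 i)) (sub_pos.mpr (hy3 i))) (b - a) (sub_pos.mpr hab)
      refine ⟨(t, s), fun i => ⟨⟨Ioo (y i) (y i + s), ⟨_, _, (h1 i).trans (hy2 i).le,
        lt_add_of_pos_right _ hs, ?_, rfl⟩, ?_, fun z hz => ⟨y i, ht i, hz.1, hz.2⟩⟩,
        ⟨Ioo (m i) (e' i), ⟨_, _, (h1 i).trans ((g1 i).trans (m1 i).le), m2 i,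
          (g3 i).trans (h3 i), rfl⟩, ?_, ?_⟩⟩⟩
      · exact (le_sub_iff_add_le'.mp ((hs2 i).trans (min_le_right _ _))).trans (h3 i)
      · rw [h4]
        exact Ioo_subset_Ioo (hy2 i).le (le_sub_iff_add_le'.mp ((hs2 i).trans (min_le_right _ _)))
      · rw [h4]
        exact Ioo_subset_Ioo ((g1 i).trans (m1 i).le) (g3 i)
      · rintro z hz ⟨u, hu, u1, u2⟩
        refine g4 i u hu ⟨?_, u1.trans hz.2⟩
        have h8 : c' i + s ≤ m i := le_sub_iff_add_le'.mp ((hs2 i).trans (min_le_left _ _))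
        exact lt_of_add_lt_add_right (h8.trans_lt (hz.1.trans u2))) N
  exact hN w hw

/-- A nonempty nowhere dense definable set of reals has an isolated point. -/
theorem exists_isolated (Y : Set ℝ) (hY : Dfn S fun x => x ∈ Y) (hne : Y.Nonempty) (hnd : ND Y) :
    ∃ y ∈ Y, ∃ ε > 0, ∀ w ∈ Y, |w - y| < ε → w = y := by
  by_contra hcon
  push Not at hcon
  let φ : ℝ × ℝ → ℝ → Prop := fun p z => ∃ y, y < z ∧ z < y + p.2 ∧
      (∀ w ∈ Y, ¬ (y - p.1 < w ∧ w < y)) ∧ ∀ ε > 0, ∃ w ∈ Y, y < w ∧ w < y + ε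
  obtain ⟨N, hN⟩ := Dfn.nip (S := S) (P := φ) (by simp only [φ]; fun_prop)
  obtain ⟨p0, hp0⟩ := hne
  obtain ⟨w, hw⟩ := nested (fun J => ∃ a b, (∃ p ∈ Y, a < p ∧ p < b) ∧ J = Ioo a b) φ
    (Ioo (p0 - 1) (p0 + 1)) ⟨_, _, ⟨p0, hp0, by linarith, by linarith⟩, rfl⟩
    (by rintro J ⟨a, b, ⟨p, -, h1, h2⟩, rfl⟩; exact ⟨p, h1, h2⟩) (by
      intro I _ J hJ
      choose a b hab hJ using hJ
      have key : ∀ i, ∃ y t, 0 < t ∧ a i < y ∧ y < b i ∧ (∀ w ∈ Y, ¬ (y - t < w ∧ w < y)) ∧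
          ∀ ε > 0, ∃ w ∈ Y, y < w ∧ w < y + ε := by
        intro i
        obtain ⟨p, hp, p1, p2⟩ := hab i
        have h1 : ∃ p ∈ Y, ∃ q ∈ Y, a i < p ∧ p < q ∧ q < b i := by
          obtain ⟨q, hq, q1, q2⟩ := hcon p hp (min (p - a i) (b i - p))
            (lt_min (by linarith) (by linarith))
          rw [lt_min_iff, abs_lt, abs_lt] at q1
          rcases lt_or_gt_of_ne q2 with h | h
          · exact ⟨q, hq, p, hp, by linarith [q1.1.1], h, p2⟩
          · exact ⟨p, hp, q, hq, p1, h, by linarith [q1.2.2]⟩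
        obtain ⟨p, hp, q, hq, p1, pq, q2⟩ := h1
        obtain ⟨c, e, c1, c2, c3, c4⟩ := hnd p q pq
        have hb : BddBelow (Y ∩ Ici e) := ⟨e, fun x hx => hx.2⟩
        have hn : (Y ∩ Ici e).Nonempty := ⟨q, hq, c3⟩
        have y1 : e ≤ sInf (Y ∩ Ici e) := le_csInf hn fun x hx => hx.2
        have y2 : sInf (Y ∩ Ici e) ≤ q := csInf_le hb ⟨hq, c3⟩
        set y := sInf (Y ∩ Ici e) with hy
        have y3 : ∀ w ∈ Y, ¬ (c < w ∧ w < y) := by
          rintro w hw ⟨w1, w2⟩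
          by_cases h : w < e
          · exact c4 w hw ⟨w1, h⟩
          · exact absurd (csInf_le hb ⟨hw, not_lt.mp h⟩) (not_le.mpr w2)
        refine ⟨y, y - c, by linarith, by linarith, by linarith, fun w hw => ?_, fun ε hε => ?_⟩
        · simpa using y3 w hw
        · by_cases hyY : y ∈ Y
          · obtain ⟨w, hw, w1, w2⟩ := hcon y hyY (min ε (y - c)) (lt_min hε (by linarith))
            rw [lt_min_iff, abs_lt, abs_lt] at w1
            refine ⟨w, hw, lt_of_le_of_ne ?_ w2.symm, by linarith [w1.1.2]⟩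
            by_contra h
            exact y3 w hw ⟨by linarith [w1.2.1], not_le.mp h⟩
          · obtain ⟨w, hw, w1⟩ := exists_lt_of_csInf_lt hn (show y < y + ε by linarith)
            refine ⟨w, hw.1, lt_of_le_of_ne (csInf_le hb hw) ?_, w1⟩
            rintro rfl
            exact hyY hw.1
      choose y t t0 y1 y2 y3 y4 using key
      obtain ⟨τ, τ0, hτ⟩ := exists_pos_le t t0 1 one_pos
      have h2 := fun i => y4 i (min τ (b i - y i)) (lt_min τ0 (by linarith [y2 i]))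
      choose w w1 w2 w3 using h2
      obtain ⟨s, s0, hs⟩ := exists_pos_le (fun i => (w i - y i) / 2)
        (fun i => by linarith [w2 i]) 1 one_pos
      have y5 : ∀ i, ∀ w ∈ Y, ¬ (y i - τ < w ∧ w < y i) := fun i w hw h =>
        y3 i w hw ⟨by linarith [h.1, hτ i], h.2⟩
      refine ⟨(τ, s), fun i => ⟨⟨Ioo (y i) (y i + s), ⟨_, _, y4 i s s0, rfl⟩, ?_,
        fun z hz => ⟨y i, hz.1, hz.2, y5 i, y4 i⟩⟩,
        ⟨Ioo (y i + s) (y i + min τ (b i - y i)), ⟨_, _, ⟨w i, w1 i, ?_, w3 i⟩, rfl⟩, ?_, ?_⟩⟩⟩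
      · rw [hJ]
        refine Ioo_subset_Ioo (y1 i).le ?_
        have := min_le_right τ (b i - y i)
        linarith [hs i, w3 i, w2 i]
      · linarith [hs i, w2 i]
      · rw [hJ]
        refine Ioo_subset_Ioo (by linarith [y1 i]) ?_
        have := min_le_right τ (b i - y i)
        linarith
      · rintro z hz ⟨u, u1, u2, u3, -⟩
        have h3 := min_le_left τ (b i - y i)
        have h4 : y i < u := by linarith [hz.1]
        obtain ⟨v, hv, v1, v2⟩ := y4 i (u - y i) (by linarith)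
        exact u3 v hv ⟨by simp only; linarith [hz.2], by linarith⟩) N
  exact hN w hw

/-- The same in several variables. -/
theorem exists_isolated_pi {κ : Type} [Fintype κ] (Z : Set (κ → ℝ)) (hZ : Dfn S fun x => x ∈ Z)
    (hne : Z.Nonempty) (hnd : ∀ k, ND {x | ∃ z ∈ Z, z k = x}) :
    ∃ z ∈ Z, ∃ ε > 0, ∀ w ∈ Z, dist w z < ε → w = z := by
  classical
  have key : ∀ s : Finset κ, ∃ z ∈ Z, ∃ ε > 0, ∀ w ∈ Z, dist w z < ε → ∀ k ∈ s, w k = z k := by
    intro s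
    induction s using Finset.induction_on with
    | empty =>
      obtain ⟨z, hz⟩ := hne
      exact ⟨z, hz, 1, one_pos, by simp⟩
    | insert j s _ ih =>
      obtain ⟨z, hz, ε, hε, h⟩ := ih
      obtain ⟨_, ⟨z', hz', z1, rfl⟩, ε', hε', h'⟩ := exists_isolated (S := S)
        {x | ∃ w ∈ Z, dist w z < ε ∧ w j = x} (by simp only [mem_ofPred_eq]; fun_prop)
        ⟨z j, z, hz, by simpa using hε, rfl⟩
        ((hnd j).mono (by rintro x ⟨w, h1, -, h3⟩; exact ⟨w, h1, h3⟩))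
      refine ⟨z', hz', min ε' (ε - dist z' z), lt_min hε' (by linarith), fun w hw hd k hk => ?_⟩
      rw [lt_min_iff] at hd
      have h1 : dist w z < ε := by linarith [dist_triangle w z' z, hd.2]
      rcases Finset.mem_insert.mp hk with rfl | hk
      · exact h' _ ⟨w, hw, h1, rfl⟩ ((dist_le_pi_dist w z' k).trans_lt hd.1)
      · rw [h w hw h1 k hk, h z' hz' z1 k hk]
  obtain ⟨z, hz, ε, hε, h⟩ := key Finset.univ
  exact ⟨z, hz, ε, hε, fun w hw hd => funext fun k => h w hw hd k (Finset.mem_univ _)⟩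

end Pool.Agent.H994Z.NL
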