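import Mathlib
import Pool.Agent.H994Z.NL.Calc

set_option autoImplicit false

open Set Filter

namespace Pool.Agent.H994Z.NL

/-- Externally definable predicates. -/
def Ext (S : Sys) {T : Type} [Enc S T] (Y : T → Prop) : Prop :=
  ∃ (B : Type) (_ : Enc S B) (φ : T → B → Prop), (Dfn S fun p : T × B => φ p.1 p.2) ∧
    ∀ A : Set T, A.Finite → ∃ b, ∀ a ∈ A, (Y a ↔ φ a b)

/-- Honest definitions over a subset. -/
def Hon (S : Sys) {T : Type} [Enc S T] (Y : T → Prop) (Z : Set T) : Prop :=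
  ∃ (B : Type) (_ : Enc S B) (θ : T → B → Prop), (Dfn S fun p : T × B => θ p.1 p.2) ∧
    ∀ A : Set T, A.Finite → A ⊆ Z → (∀ a ∈ A, Y a) → ∃ d, (∀ a ∈ A, θ a d) ∧ ∀ a, θ a d → Y a

variable {S : Sys} {T U : Type} [Enc S T] [Enc S U]

theorem Hon.mono {Y : T → Prop} {Z Z' : Set T} (h : Hon S Y Z) (hZ : Z' ⊆ Z) : Hon S Y Z' := by
  obtain ⟨B, _, θ, h1, h2⟩ := h
  exact ⟨B, _, θ, h1, fun A hA hAZ => h2 A hA (hAZ.trans hZ)⟩

theorem Hon.compl (Y : T → Prop) : Hon S Y {a | ¬ Y a} :=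
  ⟨ℝ, inferInstance, fun _ _ => False, by fun_prop, fun A _ h1 h2 =>
    ⟨0, fun a ha => h1 ha (h2 a ha), fun _ h => h.elim⟩⟩

theorem Hon.union {Y : T → Prop} {Z Z' : Set T} (h : Hon S Y Z) (h' : Hon S Y Z') :
    Hon S Y (Z ∪ Z') := by
  obtain ⟨B, _, θ, h1, h2⟩ := h
  obtain ⟨B', _, θ', h1', h2'⟩ := h'
  refine ⟨B × B', inferInstance, fun a d => θ a d.1 ∨ θ' a d.2, by fun_prop, fun A hA hAZ hY => ?_⟩
  obtain ⟨d, d1, d2⟩ := h2 (A ∩ Z) (hA.inter_of_left _) inter_subset_right fun a ha => hY a ha.1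
  obtain ⟨d', d1', d2'⟩ := h2' (A ∩ Z') (hA.inter_of_left _) inter_subset_right
    fun a ha => hY a ha.1
  refine ⟨(d, d'), fun a ha => ?_, fun a ha => ha.elim (d2 a) (d2' a)⟩
  rcases hAZ ha with h | h
  · exact Or.inl (d1 a ⟨ha, h⟩)
  · exact Or.inr (d1' a ⟨ha, h⟩)

theorem patterns {Y : T → Prop} (q : Ultrafilter T) (hq : ∀ Z ∈ q, ¬ Hon S Y Z) (N : ℕ) :
    ∃ V : Ultrafilter (Fin N → T), ∀ A : Set (Fin N), ∃ W : Ultrafilter (Fin N → T),
      (∀ᶠ x in (W : Filter (Fin N → T)), ∀ i, (Y (x i) ↔ i ∈ A)) ∧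
      ∀ ψ : (Fin N → T) → Prop, Dfn S ψ → (∀ᶠ x in (V : Filter (Fin N → T)), ψ x) →
        ∀ᶠ x in (W : Filter (Fin N → T)), ψ x := by
  have hY : ∀ᶠ m in (q : Filter T), Y m := by
    by_contra h
    exact hq _ (Ultrafilter.eventually_not.mpr h) (Hon.compl Y)
  induction N with
  | zero =>
    exact ⟨pure Fin.elim0, fun A => ⟨pure Fin.elim0, Eventually.of_forall fun _ i => i.elim0,
      fun _ _ h => h⟩⟩
  | succ N ih =>
    obtain ⟨V, hV⟩ := ih
    refine ⟨q.bind fun m => V.map fun x => (Fin.cons m x : Fin (N + 1) → T), fun A => ?_⟩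
    obtain ⟨W, W1, W2⟩ := hV {i | i.succ ∈ A}
    have hb : ∀ (V : Ultrafilter (Fin N → T)) (ψ : (Fin (N + 1) → T) → Prop),
        (∀ᶠ x in ((q.bind fun m => V.map fun x => (Fin.cons m x : Fin (N + 1) → T) :
          Ultrafilter _) : Filter (Fin (N + 1) → T)), ψ x) ↔
        ∀ᶠ m in (q : Filter T), ∀ᶠ x in (V : Filter (Fin N → T)), ψ (Fin.cons m x) :=
      fun V ψ => Filter.eventually_bind
    have tr : ∀ ψ : (Fin (N + 1) → T) → Prop, Dfn S ψ →
        (∀ᶠ m in (q : Filter T), ∀ᶠ x in (V : Filter (Fin N → T)), ψ (Fin.cons m x)) →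
        ∀ᶠ m in (q : Filter T), ∀ᶠ x in (W : Filter (Fin N → T)), ψ (Fin.cons m x) :=
      fun ψ hψ h => h.mono fun m hm => W2 _ (by fun_prop) hm
    by_cases h0 : (0 : Fin (N + 1)) ∈ A
    · refine ⟨q.bind fun m => W.map fun x => (Fin.cons m x : Fin (N + 1) → T), ?_,
        fun ψ hψ h => (hb _ _).mpr (tr ψ hψ ((hb _ _).mp h))⟩
      rw [hb]
      refine hY.mono fun m hm => W1.mono fun x hx i => Fin.cases ?_ (fun i => ?_) i
      · exact iff_of_true hm h0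
      · exact hx i
    · let F : Filter (Fin (N + 1) → T) :=
        { sets := {E | ∃ G ∈ W, ∃ ψ : (Fin (N + 1) → T) → Prop, Dfn S ψ ∧
            (∀ᶠ m in (q : Filter T), ∀ᶠ x in (W : Filter (Fin N → T)), ψ (Fin.cons m x)) ∧
            ∀ x : Fin (N + 1) → T, (Fin.tail x : Fin N → T) ∈ G → ¬ Y (x 0) → ψ x → x ∈ E}
          univ_sets := ⟨univ, univ_mem, fun _ => True, by fun_prop, by simp, by simp⟩
          sets_of_superset := by
            rintro E E' ⟨G, hG, ψ, h1, h2, h3⟩ hE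
            exact ⟨G, hG, ψ, h1, h2, fun x a b c => hE (h3 x a b c)⟩
          inter_sets := by
            rintro E E' ⟨G, hG, ψ, h1, h2, h3⟩ ⟨G', hG', ψ', h1', h2', h3'⟩
            exact ⟨G ∩ G', inter_mem hG hG', fun x => ψ x ∧ ψ' x, h1.and h1',
              (h2.and h2').mono fun m hm => hm.1.and hm.2,
              fun x a b c => ⟨h3 x a.1 b c.1, h3' x a.2 b c.2⟩⟩ }
      have hF : F.NeBot := by
        rw [← Filter.forall_mem_nonempty_iff_neBot]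
        rintro E ⟨G, hG, ψ, h1, h2, h3⟩
        by_contra hne
        refine hq _ h2 ⟨Fin N → T, inferInstance, fun a x => ψ (Fin.cons a x), by fun_prop,
          fun A0 hA0 hsub _ => ?_⟩
        have h4 : ∀ᶠ x in (W : Filter (Fin N → T)), ∀ a ∈ A0, ψ (Fin.cons a x) :=
          (Filter.eventually_all_finite hA0).mpr fun a ha => hsub ha
        obtain ⟨x, x1, x2⟩ := (h4.and hG).exists
        refine ⟨x, x1, fun a ha => ?_⟩
        by_contra hc
        exact hne ⟨_, h3 (Fin.cons a x) x2 hc ha⟩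
      refine ⟨Ultrafilter.of F, Ultrafilter.of_le F ?_, fun ψ hψ h => Ultrafilter.of_le F ?_⟩
      · refine ⟨_, W1, fun _ => True, by fun_prop, by simp, fun x a b _ i => ?_⟩
        refine Fin.cases ?_ (fun i => ?_) i
        · exact iff_of_false b h0
        · exact a i
      · exact ⟨univ, univ_mem, ψ, hψ, tr ψ hψ ((hb _ _).mp h), fun x _ _ c => c⟩

theorem Ext.honest {Y : T → Prop} (h : Ext S Y) : Hon S Y univ := by
  by_contra hcon
  let F : Filter T :=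
    { sets := {Z | Hon S Y Zᶜ}
      univ_sets := (Hon.compl Y).mono (by simp)
      sets_of_superset := fun hA hAB => Hon.mono hA (compl_subset_compl.mpr hAB)
      inter_sets := fun {A B} hA hB => by
        show Hon S Y (A ∩ B)ᶜ
        rw [compl_inter]
        exact Hon.union hA hB }
  have hF : F.NeBot := by
    rw [← Filter.forall_mem_nonempty_iff_neBot]
    intro E hE
    by_contra hne
    rw [not_nonempty_iff_eq_empty] at hne
    have h1 : Hon S Y Eᶜ := hE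
    rw [hne, compl_empty] at h1
    exact hcon h1
  have hq : ∀ Z ∈ Ultrafilter.of F, ¬ Hon S Y Z := fun Z hZ hH =>
    Ultrafilter.compl_mem_iff_notMem.mp
      (Ultrafilter.of_le F (show Hon S Y Zᶜᶜ by rwa [compl_compl])) hZ
  obtain ⟨B, _, φ, h1, h2⟩ := h
  obtain ⟨N, hN⟩ := Dfn.nip h1
  obtain ⟨V, hV⟩ := patterns _ hq N
  have h3 : ∀ᶠ x in (V : Filter (Fin N → T)), ∀ A : Set (Fin N), ∃ b, ∀ i,
      (φ (x i) b ↔ i ∈ A) := by
    rw [Filter.eventually_all]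
    intro A
    obtain ⟨W, W1, W2⟩ := hV A
    by_contra hc
    have h4 := W2 _ (Dfn.not (Dfn.exists (Dfn.forall_fin fun i => by fun_prop)))
      (Ultrafilter.eventually_not.mpr hc)
    obtain ⟨x, x1, x2⟩ := (W1.and h4).exists
    obtain ⟨b, hb⟩ := h2 (range x) (finite_range x)
    exact x2 ⟨b, fun i => (hb _ ⟨i, rfl⟩).symm.trans (x1 i)⟩
  obtain ⟨x, hx⟩ := h3.exists
  exact hN x hx

theorem Dfn.ext {Y : T → Prop} (h : Dfn S Y) : Ext S Y :=
  ⟨ℝ, inferInstance, fun a _ => Y a, by fun_prop, fun _ _ => ⟨0, fun _ _ => Iff.rfl⟩⟩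

theorem Ext.comp {Y : U → Prop} (h : Ext S Y) {f : T → U} (hf : Dfn S f) :
    Ext S fun t => Y (f t) := by
  obtain ⟨B, _, φ, h1, h2⟩ := h
  refine ⟨B, _, fun t b => φ (f t) b, by fun_prop, fun A hA => ?_⟩
  obtain ⟨b, hb⟩ := h2 _ (hA.image f)
  exact ⟨b, fun a ha => hb _ ⟨a, ha, rfl⟩⟩

theorem Ext.ex {Y : T → U → Prop} (h : Ext S fun p : T × U => Y p.1 p.2) :
    Ext S fun t => ∃ u, Y t u := by
  classical
  obtain ⟨B, _, θ, h1, h2⟩ := h.honest
  refine ⟨B, _, fun t b => ∃ u, θ (t, u) b, by fun_prop, fun A hA => ?_⟩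
  let g : {t // t ∈ A ∧ ∃ u, Y t u} → T × U := fun t => (t.1, t.2.2.choose)
  have : Finite {t // t ∈ A ∧ ∃ u, Y t u} := (hA.inter_of_left {t | ∃ u, Y t u}).to_subtype
  obtain ⟨d, d1, d2⟩ := h2 (range g) (finite_range g) (subset_univ _) (by
    rintro _ ⟨t, rfl⟩
    exact t.2.2.choose_spec)
  refine ⟨d, fun a ha => ⟨fun h => ⟨_, d1 _ ⟨⟨a, ha, h⟩, rfl⟩⟩, ?_⟩⟩
  rintro ⟨u, hu⟩
  exact ⟨u, d2 _ hu⟩

@[fun_prop]
theorem Dfn.sumElim {α β : Type} [Finite α] [Finite β] {f : T → α → U} {g : T → β → U}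
    (hf : Dfn S f) (hg : Dfn S g) : Dfn S fun t => Sum.elim (f t) (g t) := by
  refine Dfn.pi fun j => ?_
  cases j
  · simp only [Sum.elim_inl]; fun_prop
  · simp only [Sum.elim_inr]; fun_prop

theorem dfn_comp_index {α β : Type} [Finite α] [Finite β] (g : α → β) :
    Dfn S fun v : β → U => v ∘ g :=
  Dfn.pi fun j => Dfn.apply (g j)

/-- The expansion by all externally definable sets. -/
def shelah (S : Sys) : Sys where
  D Y := Ext S fun v => v ∈ Y
  univ := (Dfn.of_D S.univ).ext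
  compl := by
    rintro α _ Y ⟨B, _, φ, h1, h2⟩
    refine ⟨B, _, fun a b => ¬ φ a b, h1.not, fun A hA => ?_⟩
    obtain ⟨b, hb⟩ := h2 A hA
    exact ⟨b, fun a ha => not_congr (hb a ha)⟩
  inter := by
    rintro α _ Y Z ⟨B, _, φ, h1, h2⟩ ⟨B', _, φ', h1', h2'⟩
    refine ⟨B × B', inferInstance, fun a b => φ a b.1 ∧ φ' a b.2, by fun_prop, fun A hA => ?_⟩
    obtain ⟨b, hb⟩ := h2 A hA
    obtain ⟨b', hb'⟩ := h2' A hA
    exact ⟨(b, b'), fun a ha => and_congr (hb a ha) (hb' a ha)⟩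
  relabel g h := h.comp (dfn_comp_index g)
  ex {α β} _ _ {Y} h := Ext.ex (Y := fun (v : α → ℝ) (w : β → ℝ) => Sum.elim v w ∈ Y)
    (h.comp (f := fun p : (α → ℝ) × (β → ℝ) => Sum.elim p.1 p.2) (by fun_prop))
  lt := (Dfn.of_D S.lt).ext
  add := (Dfn.of_D S.add).ext
  const c := (Dfn.of_D (S.const c)).ext
  nip := by
    rintro α β _ _ Y ⟨B, _, φ, h1, h2⟩
    obtain ⟨N, hN⟩ := Dfn.nip (S := S)
      (P := fun (a : α → ℝ) (b : (β → ℝ) × B) => φ (Sum.elim a b.1) b.2) (by fun_prop)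
    refine ⟨N, fun a ha => hN a fun A => ?_⟩
    obtain ⟨b, hb⟩ := ha A
    obtain ⟨d, hd⟩ := h2 _ (finite_range fun i => Sum.elim (a i) b)
    exact ⟨(b, d), fun i => (hd _ ⟨i, rfl⟩).symm.trans (hb i)⟩

/-- Coded types stay coded in the expansion. -/
@[reducible]
def Enc.lift (S : Sys) (T : Type) [Enc S T] : Enc (shelah S) T where
  ι := Enc.ι S T
  fin := inferInstance
  enc := Enc.enc
  inj := Enc.inj
  rng := (Dfn.of_D Enc.rng).ext

theorem Ext.df {Y : T → Prop} (h : Ext S Y) : @Df (shelah S) T (Enc.lift S T) Y := by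
  refine ⟨{v : Enc.ι S T → ℝ | ∃ t, Enc.enc (S := S) t = v ∧ Y t}, ?_, fun t => ?_⟩
  · obtain ⟨B, _, φ, h1, h2⟩ := h
    have h3 : Dfn S fun t : T => (Enc.enc t : Enc.ι S T → ℝ) := Dfn.enc
    refine ⟨B, _, fun (v : Enc.ι S T → ℝ) b => ∃ t, Enc.enc (S := S) t = v ∧ φ t b, by fun_prop,
      fun A hA => ?_⟩
    obtain ⟨b, hb⟩ := h2 _ (hA.preimage (Enc.inj (S := S)).injOn)
    refine ⟨b, fun a ha => exists_congr fun t => and_congr_right ?_⟩
    rintro rfl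
    exact hb t ha
  · constructor
    · rintro ⟨t', h1, h2⟩
      rwa [← Enc.inj (S := S) h1]
    · exact fun h => ⟨t, rfl, h⟩

end Pool.Agent.H994Z.NL
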