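import Mathlib
import Pool.Agent.H994Z.NL.Comb
import Pool.Agent.H994Z.NL.Shelah

set_option autoImplicit false

open Set

namespace Pool.Agent.H994Z.NL

open Enc

/-- Every definable set has interior or is nowhere dense. -/
def Noiseless (S : Sys) : Prop :=
  ∀ (α : Type) [Finite α] (Y : Set (α → ℝ)), S.D Y → (interior Y).Nonempty ∨ IsNowhereDense Y

/-- Coded types that are definably homeomorphic to a Euclidean space. -/
class Euc (S : Sys) (T : Type) [Enc S T] [TopologicalSpace T] : Prop where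
  ex : ∃ (α : Type) (_ : Finite α) (e : (α → ℝ) ≃ₜ T), Dfn S e

variable {S : Sys}

instance : Euc S ℝ := ⟨Unit, inferInstance, Homeomorph.funUnique Unit ℝ, Dfn.apply ()⟩

instance (κ : Type) [Finite κ] : Euc S (κ → ℝ) := ⟨κ, inferInstance, Homeomorph.refl _, Dfn.id⟩

instance (T U : Type) [Enc S T] [Enc S U] [TopologicalSpace T] [TopologicalSpace U]
    [h : Euc S T] [h' : Euc S U] : Euc S (T × U) := by
  obtain ⟨α, _, e, he⟩ := h
  obtain ⟨β, _, e', he'⟩ := h'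
  refine ⟨α ⊕ β, inferInstance,
    Homeomorph.sumArrowHomeomorphProdArrow.trans (e.prodCongr e'), ?_⟩
  exact (he.comp (dfn_comp_index Sum.inl)).prodMk (he'.comp (dfn_comp_index Sum.inr))

theorem Noiseless.tame (hN : Noiseless S) {T : Type} [Enc S T] [TopologicalSpace T] [h : Euc S T]
    (Y : Set T) (hY : Dfn S fun t => t ∈ Y) : (interior Y).Nonempty ∨ IsNowhereDense Y := by
  obtain ⟨α, _, e, he⟩ := h
  rcases hN α (e ⁻¹' Y) (Dfn.to_D (hY.comp he)) with h | h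
  · left
    rw [← e.preimage_interior] at h
    obtain ⟨x, hx⟩ := h
    exact ⟨e x, hx⟩
  · right
    rw [IsNowhereDense, ← e.preimage_closure, ← e.preimage_interior] at h
    rw [IsNowhereDense, eq_empty_iff_forall_notMem]
    intro x hx
    obtain ⟨y, rfl⟩ := e.surjective x
    exact (eq_empty_iff_forall_notMem.mp h) y hx

theorem Noiseless.real (hN : Noiseless S) (Y : Set ℝ) (hY : Dfn S fun t => t ∈ Y) :
    (∃ x, ∃ ε > 0, ∀ w, |w - x| < ε → w ∈ Y) ∨ ND Y := by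
  rcases hN.tame Y hY with ⟨x, hx⟩ | h
  · left
    obtain ⟨ε, hε, h⟩ := Metric.mem_nhds_iff.mp (mem_interior_iff_mem_nhds.mp hx)
    exact ⟨x, ε, hε, fun w hw => h hw⟩
  · exact Or.inr (ND.of_nowhereDense h)

/-- The Baire category lemma for noiseless systems. -/
theorem Noiseless.baire (hN : Noiseless S) {T : Type} [Enc S T] [MetricSpace T] [CompleteSpace T]
    [Euc S T] [Fact (Dfn S fun p : T × T => dist p.1 p.2)]
    (Z : ℝ → T → Prop) (hZ : Dfn S fun p : ℝ × T => Z p.1 p.2)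
    (anti : ∀ δ δ' t, 0 < δ' → δ' ≤ δ → Z δ t → Z δ' t) (x0 : T) (r : ℝ) (hr : 0 < r)
    (hd : ∀ x ρ, 0 < ρ → Metric.ball x ρ ⊆ Metric.ball x0 r →
      ∃ t ∈ Metric.ball x ρ, ∃ δ > 0, Z δ t) :
    ∃ δ > 0, ∃ x, ∃ ρ > 0, ρ + ρ ≤ δ ∧ Metric.ball x ρ ⊆ Metric.ball x0 r ∧
      ∀ t ∈ Metric.ball x ρ, Z δ t := by
  have h1 : (interior {t | dist t x0 < r ∧ ∃ δ > 0, Z δ t}).Nonempty := by
    refine (hN.tame _ (by simp only [mem_ofPred_eq]; fun_prop)).resolve_right fun h => ?_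
    have h2 : Metric.ball x0 r ⊆ closure {t | dist t x0 < r ∧ ∃ δ > 0, Z δ t} := by
      intro x hx
      rw [Metric.mem_closure_iff]
      intro ε hε
      have h3 : 0 < r - dist x x0 := sub_pos.mpr hx
      have h4 : Metric.ball x (min ε (r - dist x x0)) ⊆ Metric.ball x0 r :=
        Metric.ball_subset_ball' (by linarith [min_le_right ε (r - dist x x0)])
      obtain ⟨t, ht, h5⟩ := hd x _ (lt_min hε h3) h4
      exact ⟨t, ⟨h4 ht, h5⟩, by rw [dist_comm]; exact lt_of_lt_of_le ht (min_le_left _ _)⟩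
    have h5 := interior_maximal h2 Metric.isOpen_ball
    rw [h] at h5
    exact h5 (Metric.mem_ball_self hr)
  have h2 : ∃ k : ℕ, (interior {t | dist t x0 < r ∧ Z (1 / ((k : ℝ) + 1)) t}).Nonempty := by
    by_contra hcon
    push Not at hcon
    refine not_isMeagre_of_isOpen isOpen_interior h1 (IsMeagre.mono ?_ (isMeagre_iUnion
      (f := fun k : ℕ => {t | dist t x0 < r ∧ Z (1 / ((k : ℝ) + 1)) t}) fun k => ?_))
    · intro t ht
      obtain ⟨t1, δ, hδ, t2⟩ := interior_subset ht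
      obtain ⟨k, hk⟩ := exists_nat_one_div_lt hδ
      exact mem_iUnion.mpr ⟨k, t1, anti _ _ _ (by positivity) hk.le t2⟩
    · refine IsNowhereDense.isMeagre ((hN.tame _ (by simp only [mem_ofPred_eq]; fun_prop)).resolve_left ?_)
      rw [hcon k]
      exact not_nonempty_empty
  obtain ⟨k, x, hx⟩ := h2
  obtain ⟨ρ, hρ, h3⟩ := Metric.mem_nhds_iff.mp (mem_interior_iff_mem_nhds.mp hx)
  have hk : (0 : ℝ) < 1 / ((k : ℝ) + 1) := by positivity
  have h4 : Metric.ball x (min ρ (1 / ((k : ℝ) + 1) / 2)) ⊆ Metric.ball x ρ :=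
    Metric.ball_subset_ball (min_le_left _ _)
  exact ⟨_, hk, x, min ρ (1 / ((k : ℝ) + 1) / 2), lt_min hρ (by linarith),
    by linarith [min_le_right ρ (1 / ((k : ℝ) + 1) / 2)], fun t ht => (h3 (h4 ht)).1,
    fun t ht => (h3 (h4 ht)).2⟩

/-- Canonical definable selectors. -/
def Picks (S : Sys) (U : Type) [Enc S U] (pick : Set U → U) : Prop :=
  ∀ (T : Type) [Enc S T] (R : T → U → Prop), (Dfn S fun p : T × U => R p.1 p.2) →
    (Dfn S fun t => pick {u | R t u}) ∧ ∀ t, (∃ u, R t u) → R t (pick {u | R t u})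

/-- Points that are interior or isolated at scale `t`. -/
def GG (Y : Set ℝ) (t x : ℝ) : Prop :=
  (∀ w, |w - x| < t → w ∈ Y) ∨ (x ∈ Y ∧ ∀ w ∈ Y, |w - x| < t → w = x)

/-- The selected point. -/
def Sel (Y : Set ℝ) (x : ℝ) : Prop :=
  ∃ t, 0 < t ∧ (∀ s, 0 < s → s ≤ 1 → (∃ y, GG Y s y) → s ≤ t + t) ∧
    (∀ u, u < t + t → ∃ s, u < s ∧ 0 < s ∧ s ≤ 1 ∧ ∃ y, GG Y s y) ∧ GG Y t x ∧
    ((0 ≤ x ∧ ∀ y, GG Y t y → 0 ≤ y → x ≤ y) ∨ ((∀ y, GG Y t y → y < 0) ∧ ∀ y, GG Y t y → y ≤ x))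

theorem Sel.unique {Y : Set ℝ} {x y : ℝ} (hx : Sel Y x) (hy : Sel Y y) : x = y := by
  obtain ⟨t, -, a1, a2, a3, a4⟩ := hx
  obtain ⟨t', -, b1, b2, b3, b4⟩ := hy
  have h1 : t = t' := by
    by_contra hne
    rcases lt_or_gt_of_ne hne with h | h
    · obtain ⟨s, s1, s2, s3, s4⟩ := b2 (t + t) (by linarith)
      linarith [a1 s s2 s3 s4]
    · obtain ⟨s, s1, s2, s3, s4⟩ := a2 (t' + t') (by linarith)
      linarith [b1 s s2 s3 s4]
  subst h1
  rcases a4 with a4 | a4 <;> rcases b4 with b4 | b4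
  · exact le_antisymm (a4.2 y b3 b4.1) (b4.2 x a3 a4.1)
  · linarith [b4.1 x a3, a4.1]
  · linarith [a4.1 y b3, b4.1]
  · exact le_antisymm (b4.2 x a3) (a4.2 y b3)

theorem Sel.mem {Y : Set ℝ} {x : ℝ} (hx : Sel Y x) : x ∈ Y := by
  obtain ⟨t, t0, -, -, a3 | a3, -⟩ := hx
  · exact a3 x (by simpa using t0)
  · exact a3.1

theorem GG.anti {Y : Set ℝ} {t t' x : ℝ} (h : GG Y t x) (ht : t' ≤ t) : GG Y t' x := by
  rcases h with h | h
  · exact Or.inl fun w hw => h w (hw.trans_le ht)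
  · exact Or.inr ⟨h.1, fun w hw h2 => h.2 w hw (h2.trans_le ht)⟩

theorem exists_sel {Y : Set ℝ} {t0 x0 : ℝ} (h0 : 0 < t0) (h : GG Y t0 x0) : ∃ x, Sel Y x := by
  let A : Set ℝ := {s | 0 < s ∧ s ≤ 1 ∧ ∃ y, GG Y s y}
  have hA : min t0 1 ∈ A := ⟨lt_min h0 one_pos, min_le_right _ _, x0, h.anti (min_le_left _ _)⟩
  have hb : BddAbove A := ⟨1, fun s hs => hs.2.1⟩
  have h1 : 0 < sSup A := hA.1.trans_le (le_csSup hb hA)
  set t := sSup A / 2 with ht
  have hc : IsClosed {x | GG Y t x} := by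
    refine IsClosed.union (s₁ := {x | ∀ w, |w - x| < t → w ∈ Y})
      (s₂ := {x | x ∈ Y ∧ ∀ w ∈ Y, |w - x| < t → w = x}) ?_ ?_
    · have : {x | ∀ w, |w - x| < t → w ∈ Y} = ⋂ w ∈ Yᶜ, {x | t ≤ |w - x|} := by
        ext x
        simp only [mem_ofPred_eq, mem_iInter, mem_compl_iff]
        exact forall_congr' fun w => by rw [← not_lt]; tauto
      rw [this]
      exact isClosed_biInter fun w _ => isClosed_le continuous_const (by fun_prop)
    · refine Metric.isClosed_of_pairwise_le_dist (ε := t) (by linarith) fun x hx y hy hxy => ?_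
      by_contra hlt
      exact hxy (hy.2 x hx.1 (not_le.mp hlt))
  have hn : {x | GG Y t x}.Nonempty := by
    obtain ⟨s, hs, s1⟩ := exists_lt_of_lt_csSup ⟨_, hA⟩ (show t < sSup A by linarith)
    obtain ⟨y, hy⟩ := hs.2.2
    exact ⟨y, hy.anti s1.le⟩
  have key : ∃ x, GG Y t x ∧ ((0 ≤ x ∧ ∀ y, GG Y t y → 0 ≤ y → x ≤ y) ∨
      ((∀ y, GG Y t y → y < 0) ∧ ∀ y, GG Y t y → y ≤ x)) := by
    by_cases hp : ({x | GG Y t x} ∩ Ici 0).Nonempty
    · have hb2 : BddBelow ({x | GG Y t x} ∩ Ici 0) := ⟨0, fun x hx => hx.2⟩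
      have := (hc.inter isClosed_Ici).csInf_mem hp hb2
      exact ⟨_, this.1, Or.inl ⟨this.2, fun y h1 h2 => csInf_le hb2 ⟨h1, h2⟩⟩⟩
    · have h3 : ∀ y, GG Y t y → y < 0 := fun y hy => by
        by_contra hc
        exact hp ⟨y, hy, not_lt.mp hc⟩
      have hb2 : BddAbove {x | GG Y t x} := ⟨0, fun x hx => (h3 x hx).le⟩
      exact ⟨_, hc.csSup_mem hn hb2, Or.inr ⟨h3, fun y hy => le_csSup hb2 hy⟩⟩
  obtain ⟨x, x1, x2⟩ := key
  refine ⟨x, t, by linarith, fun s s1 s2 s3 => ?_, fun u hu => ?_, x1, x2⟩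
  · linarith [le_csSup hb (show s ∈ A from ⟨s1, s2, s3⟩)]
  · obtain ⟨s, hs, s1⟩ := exists_lt_of_lt_csSup ⟨_, hA⟩ (show u < sSup A by linarith)
    exact ⟨s, s1, hs⟩

theorem Noiseless.picks_real (hN : Noiseless S) : ∃ pick, Picks S ℝ pick := by
  classical
  refine ⟨fun Y => if h : ∃ x, Sel Y x then h.choose else 0, fun T _ R hR => ⟨?_, fun t ht => ?_⟩⟩
  · have h1 : Dfn S fun p : T × ℝ => Sel {u | R p.1 u} p.2 := by
      simp only [Sel, GG, mem_ofPred_eq]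
      fun_prop
    obtain ⟨Q, hQ⟩ : ∃ Q : T → ℝ → Prop, Q = fun t x => Sel {u | R t u} x := ⟨_, rfl⟩
    have h2 : Dfn S fun p : T × ℝ => Q p.1 p.2 := by rw [hQ]; exact h1
    refine Dfn.of_graph (Dfn.congr'
      (f := fun p : T × ℝ => Q p.1 p.2 ∨ ((¬ ∃ y, Q p.1 y) ∧ 0 = p.2)) (by fun_prop) fun p => ?_)
    rw [hQ]
    by_cases h : ∃ x, Sel {u | R p.1 u} x
    · simp only [h, not_true, false_and, or_false]
      exact ⟨fun h' => h.choose_spec.unique h', fun h' => h' ▸ h.choose_spec⟩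
    · simp only [h, not_false_iff, true_and]
      exact ⟨fun h' => h'.resolve_left fun h'' => h ⟨_, h''⟩, Or.inr⟩
  · have h1 : Dfn S fun x => x ∈ {u | R t u} := by simp only [mem_ofPred_eq]; fun_prop
    have h : ∃ x, Sel {u | R t u} x := by
      rcases hN.real _ h1 with ⟨x, ε, hε, h⟩ | h
      · exact exists_sel hε (Or.inl h)
      · obtain ⟨x, hx, ε, hε, h⟩ := exists_isolated _ h1 ht h
        exact exists_sel hε (Or.inr ⟨hx, h⟩)
    simp only [dif_pos h]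
    exact h.choose_spec.mem

theorem Picks.prod {U V : Type} [Enc S U] [Enc S V] {p : Set U → U} {q : Set V → V}
    (hp : Picks S U p) (hq : Picks S V q) : ∃ pick, Picks S (U × V) pick := by
  refine ⟨fun Y => (p {u | ∃ v, (u, v) ∈ Y}, q {v | (p {u | ∃ v, (u, v) ∈ Y}, v) ∈ Y}),
    fun T _ R hR => ?_⟩
  obtain ⟨a1, a2⟩ := hp T (fun t u => ∃ v, R t (u, v)) (by fun_prop)
  obtain ⟨f, hf⟩ : ∃ f : T → U, f = fun t => p {u | ∃ v, R t (u, v)} := ⟨_, rfl⟩
  have a3 : Dfn S f := hf ▸ a1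
  obtain ⟨b1, b2⟩ := hq T (fun t v => R t (f t, v)) (by fun_prop)
  subst hf
  exact ⟨a1.prodMk b1, fun t ⟨u, hu⟩ => b2 t (a2 t ⟨u.1, u.2, hu⟩)⟩

theorem Picks.retract {U V : Type} [Enc S U] [Enc S V] {p : Set U → U} (hp : Picks S U p)
    (j : V → U) (r : U → V) (hj : Dfn S j) (hr : Dfn S r) (h : ∀ v, r (j v) = v) :
    ∃ pick, Picks S V pick := by
  refine ⟨fun Y => r (p {u | ∃ v, v ∈ Y ∧ j v = u}), fun T _ R hR => ?_⟩
  obtain ⟨a1, a2⟩ := hp T (fun t u => ∃ v, R t v ∧ j v = u) (by fun_prop)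
  refine ⟨hr.comp a1, fun t ⟨v, hv⟩ => ?_⟩
  obtain ⟨w, w1, w2⟩ := a2 t ⟨j v, v, hv, rfl⟩
  show R t (r (p {u | ∃ v, R t v ∧ j v = u}))
  rw [← w2, h]
  exact w1

theorem Noiseless.picks_fin (hN : Noiseless S) (n : ℕ) : ∃ pick, Picks S (Fin n → ℝ) pick := by
  induction n with
  | zero =>
    exact ⟨fun _ => Fin.elim0, fun T _ R _ => ⟨by fun_prop, fun t ⟨u, hu⟩ => by
      convert hu using 1⟩⟩
  | succ n ih =>
    obtain ⟨p, hp⟩ := hN.picks_real
    obtain ⟨q, hq⟩ := ih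
    obtain ⟨s, hs⟩ := hp.prod hq
    exact hs.retract (fun v : Fin (n + 1) → ℝ => (v 0, Fin.tail v)) (fun u => Fin.cons u.1 u.2)
      (by fun_prop) (by fun_prop) fun v => Fin.cons_self_tail v

theorem Noiseless.picks (hN : Noiseless S) (U : Type) [Enc S U] [Nonempty U] :
    ∃ pick, Picks S U pick := by
  classical
  obtain ⟨n, ⟨e⟩⟩ := Finite.exists_equiv_fin (ι S U)
  obtain ⟨p, hp⟩ := hN.picks_fin n
  obtain ⟨q, hq⟩ := hp.retract (fun v : ι S U → ℝ => v ∘ e.symm) (fun u => u ∘ e)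
    (dfn_comp_index _) (dfn_comp_index _) fun v => by ext; simp
  obtain ⟨u0⟩ := ‹Nonempty U›
  have he : Dfn S fun t : U => (enc t : ι S U → ℝ) := Dfn.enc
  refine hq.retract enc (fun v => if h : ∃ u, enc u = v then h.choose else u0) he ?_ fun u => ?_
  · refine Dfn.of_graph (Dfn.congr' (f := fun p : (ι S U → ℝ) × U =>
      enc p.2 = p.1 ∨ ((¬ ∃ u : U, enc u = p.1) ∧ u0 = p.2)) (by fun_prop) fun p => ?_)
    by_cases h : ∃ u : U, enc u = p.1
    · simp only [h, not_true, false_and, or_false]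
      exact ⟨fun h' => inj (S := S) (h.choose_spec.trans h'.symm), fun h' => h' ▸ h.choose_spec⟩
    · simp only [h, not_false_iff, true_and]
      exact ⟨fun h' => h'.resolve_left fun h'' => h ⟨_, h''⟩, Or.inr⟩
  · have h : ∃ u' : U, enc (S := S) u' = enc u := ⟨u, rfl⟩
    simp only [dif_pos h]
    exact inj (S := S) h.choose_spec

/-- Definable choice. -/
theorem Noiseless.choice (hN : Noiseless S) {T U : Type} [Enc S T] [Enc S U] [Nonempty U]
    (R : T → U → Prop) (hR : Dfn S fun p : T × U => R p.1 p.2) :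
    ∃ f : T → U, Dfn S f ∧ ∀ t, (∃ u, R t u) → R t (f t) := by
  obtain ⟨p, hp⟩ := hN.picks U
  exact ⟨_, hp T R hR⟩

end Pool.Agent.H994Z.NL
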