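import Mathlib
import Pool.Agent.H994Z.NL.Choice

set_option autoImplicit false

open Set Metric

namespace Pool.Agent.H994Z.NL

open Enc

variable {S : Sys}

theorem Noiseless.cover (hN : Noiseless S) {T J : Type} [Countable J] [Enc S T] [MetricSpace T]
    [CompleteSpace T] [Euc S T] [Fact (Dfn S fun p : T × T => dist p.1 p.2)]
    (Y : J → T → Prop) (hY : ∀ j, Dfn S (Y j)) (x0 : T) (r : ℝ) (hr : 0 < r)
    (hc : ∀ x ∈ ball x0 r, ∃ j, Y j x) :
    ∃ j x, ∃ ρ > 0, ball x ρ ⊆ ball x0 r ∧ ∀ t ∈ ball x ρ, Y j t := by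
  have h2 : ∃ j, (interior {t | dist t x0 < r ∧ Y j t}).Nonempty := by
    by_contra hcon
    push Not at hcon
    refine not_isMeagre_of_isOpen isOpen_ball ⟨x0, mem_ball_self hr⟩ (IsMeagre.mono ?_
      (isMeagre_iUnion (f := fun j => {t | dist t x0 < r ∧ Y j t}) fun k => ?_))
    · intro t ht
      obtain ⟨j, hj⟩ := hc t ht
      exact mem_iUnion.mpr ⟨j, ht, hj⟩
    · have := hY k
      refine IsNowhereDense.isMeagre
        ((hN.tame _ (by simp only [mem_ofPred_eq]; fun_prop)).resolve_left ?_)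
      rw [hcon k]
      exact not_nonempty_empty
  obtain ⟨k, x, hx⟩ := h2
  obtain ⟨ρ, hρ, h3⟩ := Metric.mem_nhds_iff.mp (mem_interior_iff_mem_nhds.mp hx)
  exact ⟨k, x, ρ, hρ, fun t ht => (h3 ht).1, fun t ht => (h3 ht).2⟩

theorem dist_cons_lt {n : ℕ} {s s' : ℝ} {x x' : Fin n → ℝ} {r : ℝ}
    (h : dist (x, s) (x', s') < r) :
    dist (Fin.cons s x : Fin (n + 1) → ℝ) (Fin.cons s' x') < r := by
  have hr : 0 < r := dist_nonneg.trans_lt h
  rw [Prod.dist_eq, max_lt_iff] at h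
  rw [dist_pi_lt_iff hr]
  intro i
  refine Fin.cases ?_ (fun i => ?_) i
  · exact h.2
  · exact (dist_le_pi_dist x x' i).trans_lt h.1

theorem dist_tail_lt {n : ℕ} {y y' : Fin (n + 1) → ℝ} {r : ℝ} (h : dist y y' < r) :
    dist ((Fin.tail y : Fin n → ℝ), y 0) (Fin.tail y', y' 0) < r := by
  have hr : 0 < r := dist_nonneg.trans_lt h
  rw [Prod.dist_eq, max_lt_iff, dist_pi_lt_iff hr]
  exact ⟨fun i => (dist_le_pi_dist y y' _).trans_lt h, (dist_le_pi_dist y y' _).trans_lt h⟩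

/-- A definable injection of an `m`-dimensional box. -/
def Inj (S : Sys) (K : Type) [Enc S K] (m : ℕ) : Prop :=
  ∃ u : (Fin m → ℝ) → K, Dfn S u ∧ ∃ x, ∃ r > 0, InjOn u (ball x r)

theorem inj_succ {K : Type} [Enc S K] {d : ℕ} (g : (Fin d → ℝ) × ℝ → K) (hg : Dfn S g)
    (p : (Fin d → ℝ) × ℝ) (ρ : ℝ) (hρ : 0 < ρ) (h : InjOn g (ball p ρ)) : Inj S K (d + 1) := by
  refine ⟨fun y => g (Fin.tail y, y 0), by fun_prop, Fin.cons p.2 p.1, ρ, hρ,
    fun y hy y' hy' e => ?_⟩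
  have := h (dist_tail_lt hy) (dist_tail_lt hy') e
  have e1 : (Fin.tail y : Fin d → ℝ) = Fin.tail y' := congrArg Prod.fst this
  have e2 : y 0 = y' 0 := congrArg Prod.snd this
  rw [← Fin.cons_self_tail y, ← Fin.cons_self_tail y', e1, e2]

theorem Noiseless.fibre (hN : Noiseless S) {T K : Type} [Enc S K] [Enc S T] [MetricSpace T]
    [CompleteSpace T] [Euc S T] [Fact (Dfn S fun p : T × T => dist p.1 p.2)]
    (g : T × ℝ → K) (hg : Dfn S g) (p : T × ℝ) (r : ℝ) (hr : 0 < r) :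
    ∃ q, ∃ ρ > 0, ball q ρ ⊆ ball p r ∧
      ((∀ a ∈ ball q ρ, ∀ b ∈ ball q ρ, a.1 = b.1 → g a = g b → a = b) ∨
        ∀ a ∈ ball q ρ, ∀ b ∈ ball q ρ, a.1 = b.1 → g a = g b) := by
  have hd : ∀ {q : T × ℝ} {ρ δ : ℝ}, ρ + ρ ≤ δ → ∀ a ∈ ball q ρ, ∀ b ∈ ball q ρ,
      |b.2 - a.2| < δ := by
    intro q ρ δ h a ha b hb
    have h1 : dist b.2 a.2 ≤ dist b a := le_max_right _ _
    have h2 := dist_triangle_right b a q
    rw [mem_ball] at ha hb
    rw [← Real.dist_eq]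
    linarith
  by_cases h : ∀ x ρ, 0 < ρ → ball x ρ ⊆ ball p r → ∃ t ∈ ball x ρ, ∃ δ > 0,
      ∀ s, |s - t.2| < δ → g (t.1, s) = g t → s = t.2
  · obtain ⟨δ, -, q, ρ, hρ, h1, h2, h3⟩ := hN.baire
      (fun δ (t : T × ℝ) => ∀ s, |s - t.2| < δ → g (t.1, s) = g t → s = t.2) (by fun_prop)
      (fun δ δ' t _ h1 h2 s hs => h2 s (hs.trans_le h1)) p r hr h
    refine ⟨q, ρ, hρ, h2, Or.inl fun a ha b hb e1 e2 => Prod.ext e1 ?_⟩
    exact (h3 a ha b.2 (hd h1 a ha b hb) (by rw [e1, e2])).symm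
  · push Not at h
    obtain ⟨x, σ, hσ, hx, h⟩ := h
    obtain ⟨δ, -, q, ρ, hρ, h1, h2, h3⟩ := hN.baire
      (fun δ (t : T × ℝ) => ∀ s, |s - t.2| < δ → g (t.1, s) = g t) (by fun_prop)
      (fun δ δ' t _ h1 h2 s hs => h2 s (hs.trans_le h1)) x σ hσ (by
        intro y τ hτ hy
        have hY : Dfn S fun s => s ∈ {s : ℝ | dist (y.1, s) y < τ ∧ g (y.1, s) = g y} := by
          simp only [mem_ofPred_eq]; fun_prop
        rcases hN.real _ hY with ⟨s, ε, hε, hs⟩ | hnd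
        · have h4 := hs s (by simpa using hε)
          exact ⟨(y.1, s), h4.1, ε, hε, fun s' hs' => (hs s' hs').2.trans h4.2.symm⟩
        · exfalso
          obtain ⟨s, hs, ε, hε, h5⟩ := exists_isolated _ hY ⟨y.2, by simpa using hτ, rfl⟩ hnd
          obtain ⟨s', s1, s2, s3⟩ := h (y.1, s) (hy hs.1) (min ε (τ - dist (y.1, s) y))
            (lt_min hε (sub_pos.mpr hs.1))
          rw [lt_min_iff] at s1
          refine s3 (h5 s' ⟨?_, s2.trans hs.2⟩ s1.1)
          have h6 := dist_triangle (y.1, s') (y.1, s) y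
          have h7 : dist (y.1, s') (y.1, s) = |s' - s| := by
            rw [dist_prod_same_left, Real.dist_eq]
          linarith [s1.2])
    refine ⟨q, ρ, hρ, h2.trans hx, Or.inr fun a ha b hb e1 => ?_⟩
    rw [← h3 a ha b.2 (hd h1 a ha b hb), e1]

theorem Noiseless.image_rat (hN : Noiseless S) (h : ℝ → ℝ) (hh : Dfn S h) (s0 r : ℝ) (hr : 0 < r)
    (hi : InjOn h (ball s0 r)) : ∃ c : ℚ, ∃ s, dist s s0 < r ∧ h s = c := by
  rcases hN.real {c | ∃ s, dist s s0 < r ∧ h s = c} (by simp only [mem_ofPred_eq]; fun_prop) with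
    ⟨x, ε, hε, hx⟩ | hnd
  · obtain ⟨c, c1, c2⟩ := exists_rat_btwn (show x < x + ε by linarith)
    exact ⟨c, hx c (by rw [abs_lt]; constructor <;> linarith)⟩
  exfalso
  obtain ⟨δ, hδ, x, ρ, hρ, h1, h2, h3⟩ := hN.baire
    (fun δ (s : ℝ) => ∀ s', |s' - s| < δ → |h s' - h s| < δ → s' = s) (by fun_prop)
    (fun δ δ' t _ h1 h2 s hs hs' => h2 s (hs.trans_le h1) (hs'.trans_le h1)) s0 r hr (by
      intro y τ hτ hy
      obtain ⟨_, ⟨s, s1, rfl⟩, ε, hε, h5⟩ := exists_isolated (S := S)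
        {c | ∃ s, dist s y < τ ∧ h s = c} (by simp only [mem_ofPred_eq]; fun_prop)
        ⟨h y, y, by simpa using hτ, rfl⟩
        (hnd.mono (by rintro _ ⟨s, s1, rfl⟩; exact ⟨s, hy s1, rfl⟩))
      refine ⟨s, s1, min ε (τ - dist s y), lt_min hε (sub_pos.mpr s1), fun s' a b => ?_⟩
      rw [lt_min_iff] at a b
      have h6 : dist s' y < τ := by
        have := dist_triangle s' s y
        rw [Real.dist_eq s' s] at this
        linarith [a.2]
      exact hi (hy h6) (hy s1) (h5 _ ⟨s', h6, rfl⟩ b.1))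
  have h4 : (ball x ρ).Countable := by
    refine Set.MapsTo.countable_of_injOn (f := fun s => ⌊h s / δ⌋) (mapsTo_univ _ _)
      (fun a ha b hb e => ?_) countable_univ
    refine h3 b hb a ?_ ?_
    · have := dist_triangle_right a b x
      rw [mem_ball] at ha hb
      rw [← Real.dist_eq]
      linarith
    · have := Int.abs_sub_lt_one_of_floor_eq_floor e
      rwa [← sub_div, abs_div, abs_of_pos hδ, div_lt_one hδ] at this
  have h5 := h4.measure_zero MeasureTheory.volume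
  rw [Real.volume_ball, ENNReal.ofReal_eq_zero] at h5
  linarith

theorem Noiseless.level (hN : Noiseless S) (m : ℕ) : ∀ (f : (Fin (m + 1) → ℝ) → ℝ), Dfn S f →
    ∀ p, ∀ r > 0, ∃ j : (Fin m → ℝ) → Fin (m + 1) → ℝ, Dfn S j ∧ ∃ x, ∃ ρ > 0,
      InjOn j (ball x ρ) ∧ MapsTo j (ball x ρ) (ball p r) ∧ ∃ c, ∀ y ∈ ball x ρ, f (j y) = c := by
  induction m with
  | zero =>
    intro f _ p r hr
    exact ⟨fun _ => p, by fun_prop, 0, 1, one_pos, fun a _ b _ _ => Subsingleton.elim _ _,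
      fun _ _ => mem_ball_self hr, f p, fun _ _ => rfl⟩
  | succ m ih =>
    intro f hf p r hr
    obtain ⟨g, hg⟩ : ∃ g : (Fin (m + 1) → ℝ) × ℝ → ℝ, g = fun a => f (Fin.cons a.2 a.1) :=
      ⟨_, rfl⟩
    have hgd : Dfn S g := by rw [hg]; fun_prop
    obtain ⟨q, ρ, hρ, h1, h2⟩ := hN.fibre g hgd (Fin.tail p, p 0) r hr
    have h3 : ∀ x s, (x, s) ∈ ball q ρ → (Fin.cons s x : Fin (m + 2) → ℝ) ∈ ball p r := by
      intro x s h
      have := dist_cons_lt (h1 h)
      rwa [Fin.cons_self_tail] at this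
    have h4 : ∀ x s, dist x q.1 < ρ → dist s q.2 < ρ → (x, s) ∈ ball q ρ := fun x s a b => by
      rw [mem_ball, Prod.dist_eq, max_lt_iff]; exact ⟨a, b⟩
    rcases h2 with h2 | h2
    · obtain ⟨c, x, σ, hσ, h5, h6⟩ := hN.cover
        (fun (c : ℚ) (x : Fin (m + 1) → ℝ) => ∃ s, dist s q.2 < ρ ∧ g (x, s) = c)
        (fun c => by fun_prop) q.1 ρ hρ fun x hx => hN.image_rat (fun s => g (x, s)) (by fun_prop)
          q.2 ρ hρ fun a ha b hb e =>
            (Prod.ext_iff.mp (h2 _ (h4 x a hx ha) _ (h4 x b hx hb) rfl e)).2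
      obtain ⟨τ, τ1, τ2⟩ := hN.choice
        (fun (x : Fin (m + 1) → ℝ) (s : ℝ) => dist s q.2 < ρ ∧ g (x, s) = c) (by fun_prop)
      refine ⟨fun x => Fin.cons (τ x) x, by fun_prop, x, σ, hσ, fun a _ b _ e => ?_,
        fun a ha => h3 _ _ (h4 _ _ (h5 ha) (τ2 a (h6 a ha)).1), c, fun a ha => ?_⟩
      · simpa using congrArg Fin.tail e
      · have := (τ2 a (h6 a ha)).2
        rwa [hg] at this
    · obtain ⟨j, j1, x, σ, hσ, j2, j3, c, j4⟩ := ih (fun x => g (x, q.2)) (by fun_prop) q.1 ρ hρ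
      have h5 : ∀ y ∈ ball (Fin.cons q.2 x : Fin (m + 1) → ℝ) (min ρ σ),
          (Fin.tail y : Fin m → ℝ) ∈ ball x σ ∧ dist (y 0) q.2 < ρ := by
        intro y hy
        have := dist_tail_lt hy
        rw [Prod.dist_eq, max_lt_iff, lt_min_iff, lt_min_iff] at this
        exact ⟨this.1.2, this.2.1⟩
      refine ⟨fun y => Fin.cons (y 0) (j (Fin.tail y)), by fun_prop, Fin.cons q.2 x, min ρ σ,
        lt_min hρ hσ, fun a ha b hb e => ?_,
        fun a ha => h3 _ _ (h4 _ _ (j3 (h5 a ha).1) (h5 a ha).2), c, fun a ha => ?_⟩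
      · have e1 : a 0 = b 0 := by simpa using congrFun e 0
        have e2 : j (Fin.tail a) = j (Fin.tail b) := by simpa using congrArg Fin.tail e
        rw [← Fin.cons_self_tail a, ← Fin.cons_self_tail b, e1, j2 (h5 a ha).1 (h5 b hb).1 e2]
      · have := h2 _ (h4 _ _ (j3 (h5 a ha).1) (h5 a ha).2) _
          (h4 _ q.2 (j3 (h5 a ha).1) (by simpa using hρ)) rfl
        rw [j4 _ (h5 a ha).1, hg] at this
        exact this

theorem Noiseless.dim_le (hN : Noiseless S) (n : ℕ) : ∀ m, Inj S (Fin n → ℝ) m → m ≤ n := by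
  induction n with
  | zero =>
    rintro m ⟨u, -, x, r, hr, hi⟩
    by_contra hm
    have h1 := hi (mem_ball_self hr) (show (fun i => x i + r / 2) ∈ ball x r by
      rw [mem_ball, dist_pi_lt_iff hr]
      intro i
      rw [Real.dist_eq, add_sub_cancel_left, abs_of_pos] <;> linarith) (Subsingleton.elim _ _)
    have h2 := congrFun h1 ⟨0, by omega⟩
    linarith
  | succ n ih =>
    rintro (_ | m) ⟨u, hu, x, r, hr, hi⟩
    · omega
    obtain ⟨j, j1, y, ρ, hρ, j2, j3, c, j4⟩ := hN.level m (fun x => u x 0) (by fun_prop) x r hr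
    refine Nat.succ_le_succ (ih m ⟨fun y => Fin.tail (u (j y)), by fun_prop, y, ρ, hρ,
      fun a ha b hb e => j2 ha hb (hi (j3 ha) (j3 hb) ?_)⟩)
    rw [← Fin.cons_self_tail (u (j a)), ← Fin.cons_self_tail (u (j b)), j4 a ha, j4 b hb]
    exact congrArg _ e

theorem Noiseless.inj_bound (hN : Noiseless S) (K : Type) [Enc S K] :
    ∃ n, ∀ m, Inj S K m → m ≤ n := by
  obtain ⟨n, ⟨e⟩⟩ := Finite.exists_equiv_fin (ι S K)
  refine ⟨n, fun m ⟨u, hu, x, r, hr, hi⟩ => hN.dim_le n m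
    ⟨fun y => enc (S := S) (u y) ∘ e.symm, (dfn_comp_index _).comp (Dfn.enc.comp hu), x, r, hr,
      fun a ha b hb h => hi ha hb (inj (S := S) (funext fun k => ?_))⟩⟩
  simpa using congrFun h (e k)

theorem Noiseless.curve (hN : Noiseless S) {K : Type} [Enc S K] {d : ℕ} (hd : ¬ Inj S K (d + 1))
    (g : (Fin d → ℝ) × ℝ → K) (hg : Dfn S g) (p : (Fin d → ℝ) × ℝ) (r : ℝ) (hr : 0 < r)
    (hi : ∀ a ∈ ball p r, ∀ b ∈ ball p r, a.2 = b.2 → g a = g b → a = b) :
    ∃ a ∈ ball p r, ∃ ε > 0, ∀ s, |s - a.2| < ε → ∃ x, (x, s) ∈ ball p r ∧ g (x, s) = g a := by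
  by_contra hcon
  obtain ⟨δ, -, q, ρ, hρ, h1, h2, h3⟩ := hN.baire
    (fun δ (t : (Fin d → ℝ) × ℝ) => ∀ t', dist t' t < δ → g t' = g t → t' = t) (by fun_prop)
    (fun δ δ' t _ h1 h2 s hs => h2 s (hs.trans_le h1)) p r hr (by
      intro y τ hτ hy
      have hY : Dfn S fun s => s ∈ {s : ℝ | ∃ x, dist (x, s) y < τ ∧ g (x, s) = g y} := by
        simp only [mem_ofPred_eq]; fun_prop
      rcases hN.real _ hY with ⟨s, ε, hε, hs⟩ | hnd
      · exfalso
        obtain ⟨x, x1, x2⟩ := hs s (by simpa using hε)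
        refine hcon ⟨(x, s), hy x1, ε, hε, fun s' hs' => ?_⟩
        obtain ⟨x', a, b⟩ := hs s' hs'
        exact ⟨x', hy a, b.trans x2.symm⟩
      · obtain ⟨s, ⟨x, x1, x2⟩, ε, hε, h5⟩ :=
          exists_isolated _ hY ⟨y.2, y.1, by simpa using hτ, rfl⟩ hnd
        refine ⟨(x, s), x1, min ε (τ - dist (x, s) y), lt_min hε (sub_pos.mpr x1),
          fun t' a b => ?_⟩
        rw [lt_min_iff] at a
        have h6 : dist t' y < τ := by linarith [dist_triangle t' (x, s) y, a.2]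
        refine hi _ (hy h6) _ (hy x1) (h5 t'.2 ⟨t'.1, h6, b.trans x2⟩ ?_) b
        exact lt_of_le_of_lt (le_max_right _ _ : dist t'.2 s ≤ dist t' (x, s)) a.1)
  refine hd (inj_succ g hg q ρ hρ fun a ha b hb e => h3 b hb a ?_ e)
  have := dist_triangle_right a b q
  rw [mem_ball] at ha hb
  linarith

/-- Every definable map into the group is locally small with respect to a maximal box. -/
theorem Noiseless.absorb (hN : Noiseless S) {K : Type} [AddCommGroup K] [Enc S K]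
    [Fact (Dfn S fun p : K × K => p.1 + p.2)] {d : ℕ} (hd : ¬ Inj S K (d + 1))
    (u : (Fin d → ℝ) → K) (hu : Dfn S u) (x0 : Fin d → ℝ) (r0 : ℝ) (hr0 : 0 < r0)
    (hi : InjOn u (ball x0 r0)) {κ : Type} [Fintype κ] (v : (κ → ℝ) → K) (hv : Dfn S v)
    (y0 : κ → ℝ) (r1 : ℝ) (hr1 : 0 < r1) :
    ∃ y, ∃ ρ > 0, ball y ρ ⊆ ball y0 r1 ∧ ∀ a ∈ ball y ρ, ∀ b ∈ ball y ρ,
      ∃ x ∈ ball x0 r0, ∃ x' ∈ ball x0 r0, v a - v b = u x - u x' := by
  classical
  have key : ∀ s : Finset κ, ∃ p : (Fin d → ℝ) × (κ → ℝ), ∃ σ > 0, ∃ δ > 0,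
      (∀ a ∈ ball p σ, a.1 ∈ ball x0 r0 ∧ a.2 ∈ ball y0 r1) ∧ ∀ a ∈ ball p σ, ∀ y',
        dist y' a.2 < δ → (∀ i ∉ s, y' i = a.2 i) →
          ∃ x' ∈ ball x0 r0, u x' - v y' = u a.1 - v a.2 := by
    intro s
    induction s using Finset.induction_on with
    | empty =>
      have h1 : ∀ a ∈ ball (x0, y0) (min r0 r1), a.1 ∈ ball x0 r0 ∧ a.2 ∈ ball y0 r1 := by
        intro a ha
        rw [mem_ball, Prod.dist_eq, max_lt_iff, lt_min_iff, lt_min_iff] at ha
        exact ⟨ha.1.1, ha.2.2⟩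
      refine ⟨(x0, y0), min r0 r1, lt_min hr0 hr1, 1, one_pos, h1, fun a ha y' _ h => ?_⟩
      have : y' = a.2 := funext fun i => h i (by simp)
      exact ⟨a.1, (h1 a ha).1, by rw [this]⟩
    | insert j s _ ih =>
      obtain ⟨p, σ, hσ, δ, hδ, h1, h2⟩ := ih
      obtain ⟨δ', hδ', q, ρ, hρ, -, h3, h4⟩ := hN.baire
        (fun δ' (a : (Fin d → ℝ) × (κ → ℝ)) => ∀ t, |t - a.2 j| < δ' → ∃ x',
          dist (x', Function.update a.2 j t) p < σ ∧
            u x' - v (Function.update a.2 j t) = u a.1 - v a.2) (by fun_prop)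
        (fun δ δ' t _ h1 h2 s hs => h2 s (hs.trans_le h1)) p σ hσ (by
          intro y τ hτ hy
          have h5 : ∀ b ∈ ball (y.1, y.2 j) τ, (b.1, Function.update y.2 j b.2) ∈ ball y τ := by
            intro b hb
            rw [mem_ball, Prod.dist_eq, max_lt_iff] at hb ⊢
            refine ⟨hb.1, (dist_pi_lt_iff hτ).mpr fun i => ?_⟩
            by_cases h : i = j
            · subst h
              simpa using hb.2
            · simpa [Function.update_of_ne h] using hτ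
          obtain ⟨a, ha, ε, hε, h6⟩ := hN.curve hd
            (fun b => u b.1 - v (Function.update y.2 j b.2)) (by fun_prop) (y.1, y.2 j) τ hτ (by
              intro a ha b hb e1 e2
              rw [e1, sub_left_inj] at e2
              exact Prod.ext (hi (h1 _ (hy (h5 a ha))).1 (h1 _ (hy (h5 b hb))).1 e2) e1)
          refine ⟨_, h5 a ha, ε, hε, fun t ht => ?_⟩
          obtain ⟨x, x1, x2⟩ := h6 t (by simpa using ht)
          refine ⟨x, ?_, ?_⟩
          · simpa using hy (h5 _ x1)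
          · simpa using x2)
      refine ⟨q, ρ, hρ, min δ δ', lt_min hδ hδ', fun a ha => h1 a (h3 ha), fun a ha y' d1 d2 => ?_⟩
      rw [lt_min_iff] at d1
      obtain ⟨x, x1, x2⟩ := h4 a ha (y' j) ((dist_le_pi_dist y' a.2 j).trans_lt d1.2)
      rw [← x2]
      refine h2 _ x1 y' ((dist_pi_lt_iff hδ).mpr fun i => ?_) fun i hi => ?_
      · by_cases h : i = j
        · subst h
          simpa using hδ
        · simpa [Function.update_of_ne h] using (dist_le_pi_dist y' a.2 i).trans_lt d1.1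
      · by_cases h : i = j
        · subst h
          simp
        · simpa [Function.update_of_ne h] using d2 i (by simp [h, hi])
  obtain ⟨p, σ, hσ, δ, hδ, h1, h2⟩ := key Finset.univ
  refine ⟨p.2, min σ δ, lt_min hσ hδ, fun a ha => (h1 (p.1, a) ?_).2, fun a ha b hb => ?_⟩
  · rw [mem_ball, Prod.dist_eq, max_lt_iff]
    exact ⟨by simpa using hσ, lt_of_lt_of_le ha (min_le_left _ _)⟩
  · obtain ⟨x, x1, x2⟩ := h2 p (mem_ball_self hσ) a (lt_of_lt_of_le ha (min_le_right _ _))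
      (by simp)
    obtain ⟨x', x1', x2'⟩ := h2 p (mem_ball_self hσ) b (lt_of_lt_of_le hb (min_le_right _ _))
      (by simp)
    refine ⟨x, x1, x', x1', ?_⟩
    rw [sub_eq_iff_eq_add.mp (x2.trans x2'.symm)]
    abel

end Pool.Agent.H994Z.NL
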