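import Mathlib

set_option autoImplicit false

open Set Filter Topology MeasureTheory
open scoped Pointwise

namespace Pool.Agent.H994Z.NL

theorem growth {r A C : ℝ} (hA : 0 < A) (hC : 0 < C) (h : ∀ j : ℕ, r ^ (2 ^ j) ≤ A * C ^ j) :
    r ≤ 1 := by
  by_contra hr
  push Not at hr
  have hL : 0 < Real.log r := Real.log_pos hr
  have h1 : ∀ j : ℕ, Real.log r ≤ Real.log A * ((j : ℝ) ^ 0 / 2 ^ j) +
      Real.log C * ((j : ℝ) ^ 1 / 2 ^ j) := by
    intro j
    have h2 := Real.log_le_log (by positivity) (h j)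
    rw [Real.log_pow, Real.log_mul hA.ne' (by positivity), Real.log_pow] at h2
    push_cast at h2
    have h3 : (0 : ℝ) < 2 ^ j := by positivity
    rw [pow_zero, pow_one, ← mul_div_assoc, ← mul_div_assoc, ← add_div, le_div_iff₀ h3]
    linarith
  have h2 := ((tendsto_pow_const_div_const_pow_of_one_lt 0 (r := 2) one_lt_two).const_mul
    (Real.log A)).add
    ((tendsto_pow_const_div_const_pow_of_one_lt 1 (r := 2) one_lt_two).const_mul (Real.log C))
  have h3 := ge_of_tendsto' h2 h1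
  linarith

/-- A multiplicative function with a weak triangle inequality. -/
structure Mod {K : Type} [Field K] (Δ : K → ℝ) (C : ℝ) : Prop where
  zero : Δ 0 = 0
  pos : ∀ x, x ≠ 0 → 0 < Δ x
  mul : ∀ x y, Δ (x * y) = Δ x * Δ y
  one_le : 1 ≤ C
  add : ∀ x, Δ x ≤ 1 → Δ (1 + x) ≤ C

namespace Mod
variable {K : Type} [Field K] {Δ : K → ℝ} {C : ℝ} (h : Mod Δ C)
include h

theorem nonneg (x : K) : 0 ≤ Δ x := by
  by_cases hx : x = 0
  · rw [hx, h.zero]
  · exact (h.pos x hx).le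

theorem one : Δ 1 = 1 := by
  have h1 := h.mul 1 1
  rw [one_mul] at h1
  exact mul_left_cancel₀ (h.pos 1 one_ne_zero).ne' (by rw [← h1, mul_one])

theorem neg (x : K) : Δ (-x) = Δ x := by
  have h1 := h.mul (-1) (-1)
  rw [neg_mul_neg, one_mul, h.one] at h1
  have h2 : Δ (-1) = 1 := by nlinarith [h.nonneg (-1)]
  rw [← neg_one_mul, h.mul, h2, one_mul]

theorem pow (x : K) (n : ℕ) : Δ (x ^ n) = Δ x ^ n := by
  induction n with
  | zero => simp [h.one]
  | succ n ih => rw [pow_succ, h.mul, ih, pow_succ]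

theorem div (x y : K) (hy : y ≠ 0) : Δ (x / y) = Δ x / Δ y := by
  rw [eq_div_iff (h.pos y hy).ne', ← h.mul, div_mul_cancel₀ _ hy]

theorem add_le {x y : K} {M : ℝ} (hx : Δ x ≤ M) (hy : Δ y ≤ M) : Δ (x + y) ≤ C * M := by
  wlog hxy : Δ x ≤ Δ y generalizing x y
  · rw [add_comm]; exact this hy hx (not_le.mp hxy).le
  by_cases h0 : y = 0
  · rw [h0, add_zero]
    nlinarith [h.nonneg x, h.one_le]
  · have h1 : x + y = (1 + x / y) * y := by field_simp; ring
    rw [h1, h.mul]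
    have h2 := h.add (x / y) (by rw [h.div _ _ h0, div_le_one (h.pos y h0)]; exact hxy)
    exact mul_le_mul h2 hy (h.nonneg _) (by linarith [h.one_le])

theorem sum_le {J : Type} (a : J → K) (M : ℝ) (hM : 0 ≤ M) (k : ℕ) : ∀ s : Finset J,
    s.card ≤ 2 ^ k → (∀ i ∈ s, Δ (a i) ≤ M) → Δ (∑ i ∈ s, a i) ≤ C ^ k * M := by
  classical
  induction k with
  | zero =>
    intro s hs ha
    rcases s.eq_empty_or_nonempty with rfl | ⟨i, hi⟩
    · simpa [h.zero] using hM
    · have : s = {i} := Finset.eq_singleton_iff_unique_mem.mpr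
        ⟨hi, fun j hj => Finset.card_le_one.mp hs j hj i hi⟩
      simpa [this] using ha i hi
  | succ k ih =>
    intro s hs ha
    obtain ⟨t, ht, hc⟩ := Finset.exists_subset_card_eq (s := s) (n := min s.card (2 ^ k))
      (min_le_left _ _)
    rw [← Finset.sum_sdiff ht, pow_succ', mul_assoc]
    refine h.add_le (ih _ ?_ fun i hi => ha i (Finset.sdiff_subset hi))
      (ih _ (hc ▸ min_le_right _ _) fun i hi => ha i (ht hi))
    rw [Finset.card_sdiff_of_subset ht, hc]
    rw [pow_succ] at hs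
    omega

theorem ultra (hn : ∀ n : ℕ, Δ n ≤ 1) {x y : K} {M : ℝ} (hM : 0 < M) (hx : Δ x ≤ M)
    (hy : Δ y ≤ M) : Δ (x + y) ≤ M := by
  have hC : 0 < C := one_pos.trans_le h.one_le
  rw [← div_le_one hM]
  refine growth hC hC fun j => ?_
  rw [div_pow, div_le_iff₀ (by positivity), ← h.pow, add_pow, ← pow_succ']
  refine h.sum_le _ _ (by positivity) (j + 1) _ ?_ fun i hi => ?_
  · rw [Finset.card_range, pow_succ]
    have := Nat.one_le_two_pow (n := j)
    omega
  · have hi' : i ≤ 2 ^ j := Nat.lt_succ_iff.mp (Finset.mem_range.mp hi)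
    rw [h.mul, h.mul, h.pow, h.pow]
    calc Δ x ^ i * Δ y ^ (2 ^ j - i) * Δ ((2 ^ j).choose i : ℕ)
        ≤ M ^ i * M ^ (2 ^ j - i) * 1 := by
          gcongr
          · exact h.nonneg _
          · exact pow_nonneg (h.nonneg _) _
          · exact h.nonneg _
          · exact h.nonneg _
          · exact hn _
      _ = M ^ 2 ^ j := by rw [mul_one, ← pow_add, Nat.add_sub_cancel' hi']

omit h in
theorem digits (b k : ℕ) : ∀ n < b ^ k, ∃ d : ℕ → ℕ, (∀ i < k, d i < b) ∧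
    n = ∑ i ∈ Finset.range k, d i * b ^ i := by
  induction k with
  | zero => intro n hn; exact ⟨fun _ => 0, by simp, by simpa using hn⟩
  | succ k ih =>
    intro n hn
    have hb : 0 < b ^ k := by
      rcases Nat.eq_zero_or_pos b with rfl | hb
      · simp at hn
      · positivity
    obtain ⟨d, d1, d2⟩ := ih (n % b ^ k) (Nat.mod_lt _ hb)
    refine ⟨fun i => if i = k then n / b ^ k else d i, fun i hi => ?_, ?_⟩
    · by_cases h : i = k
      · simp only [h, if_true]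
        rw [Nat.div_lt_iff_lt_mul hb, ← pow_succ']
        exact hn
      · simp only [h, if_false]
        exact d1 i (by omega)
    · rw [Finset.sum_range_succ]
      beta_reduce
      rw [if_pos rfl, Finset.sum_congr rfl (g := fun i => d i * b ^ i)
        fun i hi => by rw [if_neg (Finset.mem_range.mp hi).ne], ← d2]
      exact (Nat.mod_add_div' n (b ^ k)).symm

theorem nat_le {a b : ℕ} (hab : a < b) : Δ a ≤ max 1 (Δ b) := by
  have hC : 0 < C := one_pos.trans_le h.one_le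
  set M := max 1 (Δ b) with hM
  have hM1 : 1 ≤ M := le_max_left _ _
  have hM0 : 0 < M := one_pos.trans_le hM1
  obtain ⟨D, hD⟩ := ((Set.finite_Iio b).image fun d : ℕ => Δ d).bddAbove
  have hD' : ∀ d < b, Δ (d : ℕ) ≤ max 1 D := fun d hd => (hD ⟨d, hd, rfl⟩).trans (le_max_right _ _)
  have hD0 : 0 < max 1 D := one_pos.trans_le (le_max_left _ _)
  rw [← div_le_one hM0]
  refine growth hD0 hC fun j => ?_
  obtain ⟨d, d1, d2⟩ := digits b (2 ^ j) (a ^ 2 ^ j) (Nat.pow_lt_pow_left hab (by positivity))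
  rw [div_pow, div_le_iff₀ (by positivity), ← h.pow, ← Nat.cast_pow, d2, Nat.cast_sum,
    mul_comm (max 1 D), mul_assoc]
  refine h.sum_le _ _ (by positivity) j _ (by simp) fun i hi => ?_
  rw [Finset.mem_range] at hi
  rw [Nat.cast_mul, Nat.cast_pow, h.mul, h.pow]
  refine mul_le_mul (hD' _ (d1 i hi)) ?_ (pow_nonneg (h.nonneg _) _) hD0.le
  exact (pow_le_pow_left₀ (h.nonneg _) (le_max_right _ _) _).trans (pow_le_pow_right₀ hM1 hi.le)

theorem one_lt {n : ℕ} (hn : 1 < Δ n) {b : ℕ} (hb : 2 ≤ b) : 1 < Δ b := by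
  by_contra hc
  have h1 := h.nat_le (Nat.lt_pow_self (n := n) (show 1 < b by omega))
  rw [Nat.cast_pow, h.pow, max_eq_left (pow_le_one₀ (h.nonneg _) (not_lt.mp hc))] at h1
  linarith

theorem nat_mono {n : ℕ} (hn : 1 < Δ n) {a b : ℕ} (hab : a < b) : Δ a ≤ Δ b := by
  rcases Nat.lt_or_ge b 2 with hb | hb
  · have : a = 0 := by omega
    rw [this, Nat.cast_zero, h.zero]
    exact h.nonneg _
  · have := h.nat_le hab
    rwa [max_eq_right (h.one_lt hn hb).le] at this

theorem charZero {n : ℕ} (hn : 1 < Δ n) : CharZero K := by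
  refine charZero_of_inj_zero fun b hb => ?_
  by_contra h0
  rcases Nat.lt_or_ge b 2 with h2 | h2
  · have : b = 1 := by omega
    simp [this] at hb
  · have := h.one_lt hn h2
    rw [hb, h.zero] at this
    linarith

theorem rat_le [CharZero K] {n : ℕ} (hn : 1 < Δ n) (q : ℚ) (hq : |q| < 1) : Δ q ≤ 1 := by
  have h1 : q.num.natAbs < q.den := by
    rw [← Rat.num_div_den q, abs_div, Nat.abs_cast, div_lt_one (by positivity)] at hq
    have : ((q.num.natAbs : ℤ) : ℚ) < ((q.den : ℤ) : ℚ) := by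
      rw [Int.natCast_natAbs]; push_cast; exact hq
    exact_mod_cast this
  have h2 : Δ (q.num : K) = Δ (q.num.natAbs : ℕ) := by
    rcases Int.natAbs_eq q.num with e | e
    · conv_lhs => rw [e]
      simp
    · conv_lhs => rw [e]
      rw [Int.cast_neg, h.neg]
      simp
  have h3 : (q.den : K) ≠ 0 := by exact_mod_cast q.den_nz
  rw [Rat.cast_def, h.div _ _ h3, div_le_one (h.pos _ h3), h2]
  exact h.nat_mono hn h1

end Mod

section
variable {K : Type} [Field K] [TopologicalSpace K] [IsTopologicalRing K]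

theorem tube {C U : Set K} (hC : IsCompact C) (hU : U ∈ 𝓝 (0 : K)) :
    ∀ᶠ v in 𝓝 (0 : K), ∀ c ∈ C, v * c ∈ U := by
  refine hC.eventually_forall_of_forall_eventually fun y _ => ?_
  have : Tendsto (fun z : K × K => z.1 * z.2) (𝓝 (0, y)) (𝓝 0) := by
    have := (continuous_mul (M := K)).tendsto (0, y)
    simpa using this
  exact this hU

theorem nilp [T2Space K] {W : Set K} (hW : IsCompact W) (h1 : (1 : K) ∉ W) {v : K} (hv : v ∈ W)
    (hv2 : ∀ w ∈ W, v * w ∈ W) : Tendsto (fun n : ℕ => v ^ n) atTop (𝓝 0) := by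
  have h2 : ∀ n, v ^ (n + 1) ∈ W := by
    intro n
    induction n with
    | zero => simpa using hv
    | succ n ih => rw [pow_succ']; exact hv2 _ ih
  rw [← tendsto_add_atTop_iff_nat 1, tendsto_iff_ultrafilter]
  intro g hg
  obtain ⟨a, -, ha⟩ := hW.ultrafilter_le_nhds' (g.map fun n => v ^ (n + 1))
    (by rw [Ultrafilter.mem_map]; exact univ_mem' h2)
  have ha' : Tendsto (fun n => v ^ (n + 1)) g (𝓝 a) := ha
  have h3 : ∀ n, ∃ w ∈ W, v ^ (n + 1) * w = a := by
    intro n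
    refine (hW.image (continuous_const_mul (v ^ (n + 1)))).isClosed.mem_of_tendsto ha' ?_
    filter_upwards [hg (eventually_gt_atTop n)] with m hm
    obtain ⟨k, rfl⟩ := Nat.exists_eq_add_of_lt hm
    exact ⟨_, h2 k, by ring⟩
  choose w w1 w2 using h3
  obtain ⟨b, hb, hb2⟩ := hW.ultrafilter_le_nhds' (g.map w)
    (by rw [Ultrafilter.mem_map]; exact univ_mem' w1)
  have hb' : Tendsto w g (𝓝 b) := hb2
  have h4 : a * b = a := tendsto_nhds_unique (ha'.mul hb') (by simp only [w2]; exact tendsto_const_nhds)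
  have h5 : a = 0 := by
    by_contra h0
    exact h1 ((mul_left_cancel₀ h0 (h4.trans (mul_one a).symm)) ▸ hb)
  rwa [h5] at ha'

theorem exists_mod [T2Space K] [LocallyCompactSpace K] [(𝓝[≠] (0 : K)).NeBot] :
    ∃ (Δ : K → ℝ) (C : ℝ), Mod Δ C ∧ (∀ ε > 0, ∀ᶠ x in 𝓝 (0 : K), Δ x < ε) ∧
      ∀ U ∈ 𝓝 (0 : K), ∃ ε > 0, ∀ x, Δ x < ε → x ∈ U := by
  classical
  borelize K
  let μ : Measure K := Measure.addHaar
  obtain ⟨W, hW0, hW1, hW⟩ := local_compact_nhds
    (isOpen_compl_singleton.mem_nhds (show (0 : K) ∈ ({1} : Set K)ᶜ by simp))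
  have h1W : (1 : K) ∉ W := fun h => hW1 h rfl
  let Δ : K → ℝ := fun x => if h : x = 0 then 0 else distribHaarChar K (Units.mk0 x h)
  have Δ0 : Δ 0 = 0 := by simp [Δ]
  have Δpos : ∀ x, x ≠ 0 → 0 < Δ x := fun x hx => by
    simp only [Δ, dif_neg hx]
    exact_mod_cast distribHaarChar_pos
  have Δmul : ∀ x y, Δ (x * y) = Δ x * Δ y := by
    intro x y
    by_cases hx : x = 0
    · simp [hx, Δ0]
    by_cases hy : y = 0
    · simp [hy, Δ0]
    simp only [Δ, dif_neg hx, dif_neg hy, dif_neg (mul_ne_zero hx hy)]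
    rw [← NNReal.coe_mul, ← map_mul, Units.mk0_mul]
  have hm0 : 0 < μ.real W :=
    ENNReal.toReal_pos (Measure.measure_pos_of_mem_nhds μ hW0).ne' hW.measure_lt_top.ne
  have Δle : ∀ x (A : Set K), μ A ≠ ⊤ → (∀ w ∈ W, x * w ∈ A) → Δ x * μ.real W ≤ μ.real A := by
    intro x A hA hx
    by_cases h0 : x = 0
    · rw [h0, Δ0, zero_mul]; exact measureReal_nonneg
    have h2 := congrArg ENNReal.toReal (distribHaarChar_mul μ (Units.mk0 x h0) W)
    rw [ENNReal.toReal_mul, ENNReal.coe_toReal] at h2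
    simp only [Δ, dif_neg h0]
    refine h2.trans_le (ENNReal.toReal_mono hA (measure_mono ?_))
    rintro _ ⟨w, hw, rfl⟩
    exact hx w hw
  have Δbd : ∀ A : Set K, IsCompact A → ∃ M, 1 ≤ M ∧ ∀ a ∈ A, Δ a ≤ M := by
    intro A hA
    refine ⟨max 1 (μ.real (A * W) / μ.real W), le_max_left _ _, fun a ha => ?_⟩
    refine le_trans ?_ (le_max_right _ _)
    rw [le_div_iff₀ hm0]
    exact Δle a _ (hA.mul hW).measure_lt_top.ne fun w hw => Set.mul_mem_mul ha hw
  have Δsm : ∀ ε > 0, ∀ᶠ x in 𝓝 (0 : K), Δ x < ε := by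
    intro ε hε
    obtain ⟨O, O1, O2, O3⟩ := Set.exists_isOpen_lt_of_lt (μ := μ) {0}
      (ENNReal.ofReal (ε * μ.real W)) (by simpa using mul_pos hε hm0)
    filter_upwards [tube hW (O2.mem_nhds (O1 rfl))] with x hx
    have h2 := Δle x O (ne_top_of_lt O3) hx
    have h3 : μ.real O < ε * μ.real W := ENNReal.toReal_lt_of_lt_ofReal O3
    exact lt_of_mul_lt_mul_right (h2.trans_lt h3) hm0.le
  have Δ1 : Δ 1 = 1 := by
    have h1 := Δmul 1 1
    rw [one_mul] at h1
    exact mul_left_cancel₀ (Δpos 1 one_ne_zero).ne' (by rw [← h1, mul_one])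
  have Δpow : ∀ x (n : ℕ), Δ (x ^ n) = Δ x ^ n := by
    intro x n
    induction n with
    | zero => simp [Δ1]
    | succ n ih => rw [pow_succ, Δmul, ih, pow_succ]
  have hW' : IsCompact ((fun w => 1 + w) '' W) := hW.image (by fun_prop)
  have hV : ∀ᶠ v in 𝓝 (0 : K), v ∈ W ∧ (∀ w ∈ W, v * w ∈ W) ∧ ∀ w ∈ W, v * (1 + w) ∈ W := by
    filter_upwards [hW0, tube hW hW0, tube hW' hW0] with v a b c
    exact ⟨a, b, fun w hw => c _ ⟨w, hw, rfl⟩⟩
  obtain ⟨M, M1, hM⟩ := Δbd _ hW'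
  have hlow : ∀ᶠ v in 𝓝 (0 : K), 1 ≤ M * Δ (1 - v) := by
    filter_upwards [hV] with v ⟨a, b, c⟩
    have hv1 : 1 - v ≠ 0 := fun h => h1W ((sub_eq_zero.mp h) ▸ a)
    have h2 : ∀ n : ℕ, (1 - v ^ (n + 1)) * (1 - v)⁻¹ - 1 ∈ W := by
      intro n
      induction n with
      | zero => simpa [hv1] using mem_of_mem_nhds hW0
      | succ n ih =>
        convert c _ ih using 1
        field_simp
        ring
    have h3 : Tendsto (fun n : ℕ => (1 - v ^ (n + 1)) * (1 - v)⁻¹ - 1) atTop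
        (𝓝 ((1 - 0) * (1 - v)⁻¹ - 1)) :=
      ((((tendsto_add_atTop_iff_nat 1).mpr (nilp hW h1W a b)).const_sub 1).mul_const _).sub_const _
    have h4 := hM _ ⟨_, hW.isClosed.mem_of_tendsto h3 (Eventually.of_forall h2), rfl⟩
    simp only [sub_zero, one_mul, add_sub_cancel] at h4
    have h5 := Δmul (1 - v)⁻¹ (1 - v)
    rw [inv_mul_cancel₀ hv1, Δ1] at h5
    rw [h5]
    exact mul_le_mul_of_nonneg_right h4 (Δpos _ hv1).le
  have hlb : ∀ A : Set K, IsCompact A → (0 : K) ∉ A → ∃ c > 0, ∀ a ∈ A, c ≤ Δ a := by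
    intro A hA h0
    have : ∀ᶠ c in 𝓝 (0 : ℝ), ∀ a ∈ A, c ≤ Δ a := by
      refine hA.eventually_forall_of_forall_eventually fun y hy => ?_
      have hy0 : y ≠ 0 := fun h => h0 (h ▸ hy)
      have h2 : Tendsto (fun z : K => 1 - z * y⁻¹) (𝓝 y) (𝓝 0) := by
        have : Continuous fun z : K => 1 - z * y⁻¹ := by fun_prop
        simpa [hy0] using this.tendsto y
      rw [nhds_prod_eq]
      refine mem_of_superset (prod_mem_prod (Iio_mem_nhds (show (0 : ℝ) < Δ y / M from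
        div_pos (Δpos y hy0) (by linarith))) (h2 hlow)) ?_
      rintro ⟨c, z⟩ ⟨h3, h4⟩
      have h5 : 1 ≤ M * Δ (1 - (1 - z * y⁻¹)) := h4
      have h6 : c < Δ y / M := h3
      have h7 : Δ z = Δ (z * y⁻¹) * Δ y := by rw [← Δmul, inv_mul_cancel_right₀ hy0]
      rw [sub_sub_cancel] at h5
      rw [lt_div_iff₀ (by linarith)] at h6
      show c ≤ Δ z
      rw [h7]
      by_contra hc
      nlinarith [Δpos y hy0]
    obtain ⟨c, c1, c2⟩ := ((this.filter_mono nhdsWithin_le_nhds).and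
      (self_mem_nhdsWithin (a := (0 : ℝ)) (s := Ioi 0))).exists
    exact ⟨c, c2, c1⟩
  obtain ⟨t, ⟨⟨t1, t2, -⟩, t3⟩, t0⟩ := (((hV.and (Δsm 1 one_pos)).filter_mono
    nhdsWithin_le_nhds).and (self_mem_nhdsWithin (a := (0 : K)) (s := {0}ᶜ))).exists
  have t0' : t ≠ 0 := t0
  have tn := nilp hW h1W t1 t2
  obtain ⟨c, c0, hc⟩ := hlb (((fun w => t⁻¹ * w) '' W) \ interior W)
    ((hW.image (by fun_prop)).diff isOpen_interior)
    (fun h => h.2 (mem_interior_iff_mem_nhds.mpr hW0))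
  have hsub : ∀ x, Δ x < c → x ∈ W := by
    intro x hx
    by_contra hxW
    have h2 : ∃ n : ℕ, t ^ n * x ∈ W := by
      have := tn.mul_const x
      rw [zero_mul] at this
      exact (this.eventually hW0).exists
    have h3 := Nat.find_spec h2
    have h4 : Nat.find h2 ≠ 0 := fun h => hxW (by simpa [h] using h3)
    obtain ⟨n, hn⟩ := Nat.exists_eq_succ_of_ne_zero h4
    have h5 := Nat.find_min h2 (show n < Nat.find h2 by omega)
    rw [hn] at h3
    have h6 := hc (t ^ n * x) ⟨⟨_, h3, by simp only [Nat.succ_eq_add_one]; field_simp; ring⟩,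
      fun h => h5 (interior_subset h)⟩
    rw [Δmul, Δpow] at h6
    have h7 : Δ t ^ n ≤ 1 := pow_le_one₀ (Δpos t t0').le t3.le
    have h8 : 0 < Δ x := Δpos x fun h => hxW (h ▸ mem_of_mem_nhds hW0)
    nlinarith
  obtain ⟨n, hn⟩ := exists_pow_lt_of_lt_one c0 t3
  obtain ⟨C, C1, hC⟩ := Δbd ((fun w => 1 + (t ^ n)⁻¹ * w) '' W) (hW.image (by fun_prop))
  refine ⟨Δ, C, ⟨Δ0, Δpos, Δmul, C1, fun x hx => hC _ ⟨t ^ n * x, hsub _ ?_, by
    field_simp⟩⟩, Δsm, fun U hU => ?_⟩
  · rw [Δmul, Δpow]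
    have := pow_pos (Δpos t t0') n
    nlinarith
  · obtain ⟨m, hm⟩ := (tn.eventually (tube hW hU)).exists
    have h2 := pow_pos (Δpos t t0') m
    refine ⟨c * Δ t ^ m, mul_pos c0 h2, fun x hx => ?_⟩
    have h3 : t ^ m * ((t ^ m)⁻¹ * x) = x := by field_simp
    rw [← h3]
    refine hm _ (hsub _ ?_)
    rw [← h3, Δmul, Δpow, mul_comm] at hx
    exact lt_of_mul_lt_mul_right hx h2.le

/-- Pontryagin: a locally compact locally connected nondiscrete field is `ℝ` or `ℂ`. -/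
theorem pontryagin [T2Space K] (N : Set K) (hN : N ∈ 𝓝 (0 : K)) (hc : IsCompact N)
    (hconn : IsPreconnected N) (y : K) (hy : y ∈ N) (hy0 : y ≠ 0) :
    Nonempty (K ≃+* ℝ) ∨ Nonempty (K ≃+* ℂ) := by
  have : LocallyCompactSpace K := hc.locallyCompactSpace_of_mem_nhds_of_addGroup hN
  have key : ∀ H : AddSubgroup K, (H : Set K) ∈ 𝓝 (0 : K) → y ∈ H := fun H hH =>
    hconn.subset_isClopen ⟨H.isClosed_of_isOpen (H.isOpen_of_mem_nhds hH), H.isOpen_of_mem_nhds hH⟩
      ⟨0, mem_of_mem_nhds hN, H.zero_mem⟩ hy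
  have : (𝓝[≠] (0 : K)).NeBot := by
    by_contra h
    rw [not_neBot, ← isOpen_singleton_iff_punctured_nhds] at h
    exact hy0 (key ⊥ (h.mem_nhds rfl))
  obtain ⟨Δ, C, h, h1, h2⟩ := exists_mod (K := K)
  have h3 : ∃ n : ℕ, 1 < Δ n := by
    by_contra hn
    push Not at hn
    have hy1 := h.pos y hy0
    let H : AddSubgroup K :=
      { carrier := {x | Δ x ≤ Δ y / 2}
        add_mem' := fun a b => h.ultra hn (by linarith) a b
        zero_mem' := by show Δ 0 ≤ _; rw [h.zero]; linarith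
        neg_mem' := fun {x} a => by show Δ (-x) ≤ _; rw [h.neg]; exact a }
    have h4 : Δ y ≤ Δ y / 2 := key H ((h1 (Δ y / 2) (by linarith)).mono fun x hx => hx.le)
    linarith
  obtain ⟨n, hn⟩ := h3
  have := h.charZero hn
  have h2' : 1 < Δ 2 := by simpa using h.one_lt hn (le_refl 2)
  let : UniformSpace K := IsTopologicalAddGroup.rightUniformSpace K
  have : IsUniformAddGroup K := isUniformAddGroup_of_addCommGroup
  have : CompleteSpace K := IsRightUniformAddGroup.completeSpace_of_weaklyLocallyCompactSpace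
  have hf : Continuous (Rat.castHom K) := by
    refine continuous_of_continuousAt_zero _ fun U hU => ?_
    rw [map_zero] at hU
    obtain ⟨ε, hε, h4⟩ := h2 U hU
    obtain ⟨m, hm⟩ := pow_unbounded_of_one_lt (1 / ε) h2'
    refine Metric.mem_nhds_iff.mpr ⟨1 / 2 ^ m, by positivity, fun q hq => h4 _ ?_⟩
    rw [Metric.mem_ball, Rat.dist_eq, Rat.cast_zero, sub_zero, lt_div_iff₀ (by positivity)] at hq
    have h5 := h.rat_le hn (q * 2 ^ m) (by
      rw [abs_mul, abs_of_pos (by positivity : (0 : ℚ) < 2 ^ m)]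
      exact_mod_cast hq)
    push_cast at h5
    rw [h.mul, h.pow] at h5
    rw [div_lt_iff₀ hε] at hm
    show Δ q < ε
    by_contra hcon
    nlinarith [pow_pos (one_pos.trans h2') m]
  have hu : UniformContinuous (Rat.castHom K) := uniformContinuous_addMonoidHom_of_continuous hf
  have ui : IsUniformInducing (Rat.castHom ℝ) := Rat.isUniformEmbedding_coe_real.isUniformInducing
  have dr : DenseRange (Rat.castHom ℝ) := Rat.denseRange_cast
  let φ : ℝ →+* K := IsDenseInducing.extendRingHom ui dr hu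
  have hφ : Continuous φ := (uniformContinuous_uniformly_extend ui dr hu).continuous
  let : Algebra ℝ K := φ.toAlgebra
  have : ContinuousSMul ℝ K := ⟨(hφ.comp continuous_fst).mul continuous_snd⟩
  have : FiniteDimensional ℝ K := FiniteDimensional.of_locallyCompactSpace ℝ
  rcases Real.nonempty_algEquiv_or K with ⟨⟨e⟩⟩ | ⟨⟨e⟩⟩
  · exact Or.inl ⟨e.toRingEquiv⟩
  · exact Or.inr ⟨e.toRingEquiv⟩

end

end Pool.Agent.H994Z.NL
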