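import Mathlib
import Pool.Agent.H913Z.Core
import Pool.Agent.H994Z.NL.Comb
import Pool.Agent.H994Z.NL.Shelah

set_option autoImplicit false

open Set

namespace Pool.Agent.H994Z.NL

open Enc

theorem zero_core (S : Sys) (K : Type) [AddCommGroup K] [LinearOrder K] [IsOrderedAddMonoid K]
    [DenselyOrdered K] [Nontrivial K] [Enc S K] [Fact (Dfn S fun p : K × K => p.1 < p.2)]
    [Fact (Dfn S fun p : K × K => p.1 + p.2)]
    (hz : ∀ k : ι S K, ND {x | ∃ a : K, enc (S := S) a k = x}) : False := by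
  classical
  have := Fintype.ofFinite (ι S K)
  obtain ⟨c, hc⟩ : ∃ c : K → ι S K → ℝ, c = enc := ⟨_, rfl⟩
  have hcd : Dfn S c := hc ▸ Dfn.enc
  have hci : Function.Injective c := hc ▸ inj
  obtain ⟨Sm, hSm⟩ : ∃ Sm : (ι S K → ℝ) → ℝ → Prop, Sm = fun p t => ND {x | dist (c x) p < t} :=
    ⟨_, rfl⟩
  have hSd : Dfn S fun q : (ι S K → ℝ) × ℝ => Sm q.1 q.2 := by
    simp only [hSm, ND, mem_ofPred_eq]
    fun_prop
  have hmono : ∀ p t t', t' ≤ t → Sm p t → Sm p t' := by
    intro p t t' h h1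
    rw [hSm] at h1 ⊢
    exact h1.mono fun x hx => lt_of_lt_of_le hx h
  have hG : ND {x | ∃ w : ℝ × ℝ, 0 < w.2 ∧ dist (c x) 0 ≤ w.1 ∧ Sm (c x) w.2} := by
    refine ND.iUnion (S := S) (fun (w : ℝ × ℝ) x => 0 < w.2 ∧ dist (c x) 0 ≤ w.1 ∧ Sm (c x) w.2)
      (by fun_prop) (fun w => ?_) ?_
    · by_cases hw : 0 < w.2
      · obtain ⟨Y, hY, hcov⟩ := Metric.totallyBounded_iff.mp
          (isCompact_closedBall (0 : ι S K → ℝ) w.1).totallyBounded (w.2 / 2) (by linarith)
        refine (ND.biUnion hY (A := fun y => {x | Sm (c x) w.2 ∧ dist (c x) y < w.2 / 2})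
          fun y _ => ?_).mono fun x hx => ?_
        · rcases Set.eq_empty_or_nonempty {x | Sm (c x) w.2 ∧ dist (c x) y < w.2 / 2} with h | h
          · rw [h]; exact ND.empty
          · obtain ⟨x0, x1, x2⟩ := h
            rw [hSm] at x1
            refine ND.mono x1 fun x hx => ?_
            have := dist_triangle_right (c x) (c x0) y
            have h3 := hx.2
            show dist (c x) (c x0) < w.2
            linarith
        · obtain ⟨y, hy, h⟩ := mem_iUnion₂.mp (hcov (show c x ∈ Metric.closedBall 0 w.1 from hx.2.1))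
          exact mem_iUnion₂.mpr ⟨y, hy, hx.2.2, h⟩
      · exact ND.empty.mono fun x hx => hw hx.1
    · intro I _ y hy
      choose w w1 w2 w3 using hy
      obtain ⟨t, t0, ht⟩ := exists_pos_le (fun i => (w i).2) w1 1 one_pos
      obtain ⟨s, hs⟩ := (Set.finite_range fun i => (w i).1).bddAbove
      exact ⟨(s, t), fun i => ⟨t0, (w2 i).trans (hs ⟨i, rfl⟩), hmono _ _ _ (ht i) (w3 i)⟩⟩
  obtain ⟨_, ⟨x0, x1, rfl⟩, ε, hε, hiso⟩ := exists_isolated_pi (S := S)
    {v | ∃ x, (¬ ∃ w : ℝ × ℝ, 0 < w.2 ∧ dist (c x) 0 ≤ w.1 ∧ Sm (c x) w.2) ∧ c x = v}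
    (by simp only [mem_ofPred_eq]; fun_prop) (by
      by_contra hne
      refine not_ND_univ (hG.mono fun x _ => ?_)
      by_contra hx
      exact hne ⟨c x, x, hx, rfl⟩)
    (fun k => (hz k).mono (by
      rintro _ ⟨_, ⟨x, -, rfl⟩, rfl⟩
      exact ⟨x, by rw [hc]⟩))
  refine x1 ⟨(dist (c x0) 0, ε), hε, le_rfl, ?_⟩
  rw [hSm]
  refine ((ND.singleton x0).union hG).mono fun x hx => ?_
  by_contra h
  rw [mem_union, not_or] at h
  exact h.1 (hci (hiso _ ⟨x, h.2, rfl⟩ hx))

open H913Z.NIP in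
theorem zero_dim (S : Sys) (K : Type) [Field K] [Infinite K] [Enc S K]
    [hA : Fact (Dfn S fun p : K × K => p.1 + p.2)] [Fact (Dfn S fun p : K × K => p.1 * p.2)]
    (hz : ∀ k : ι S K, ND {x | ∃ a : K, enc (S := S) a k = x}) : False := by
  classical
  obtain ⟨n, ⟨e⟩⟩ := Finite.exists_equiv_fin (ι S K)
  let c : K → Fin n → ℝ := fun a i => enc (S := S) a (e.symm i)
  have hci : Function.Injective c := fun a b h => inj (S := S) (funext fun k => by
    simpa [c] using congrFun h (e k))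
  have hcd : Dfn S c := Dfn.pi fun i => (Dfn.apply (e.symm i)).comp Dfn.enc
  let lt : K → K → Prop := fun x y => toLex (c x) < toLex (c y)
  have hsto : IsStrictTotalOrder K lt :=
    { trichotomous := fun x y h1 h2 =>
        hci (toLex.injective (le_antisymm (not_lt.mp h2) (not_lt.mp h1)))
      irrefl := fun x => lt_irrefl _
      trans := fun x y z => lt_trans }
  have dlt : Dfn S fun p : K × K => lt p.1 p.2 := by
    have : Dfn S fun p : K × K => ∃ i : Fin n, (∀ j : Fin n, j < i → c p.1 j = c p.2 j) ∧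
        c p.1 i < c p.2 i :=
      Dfn.exists_fin fun i => Dfn.and (Dfn.forall_fin fun j => by fun_prop) (by fun_prop)
    exact this
  clear_value lt
  have d2 : Dfn S fun q : (K × K) × (K × K) =>
      lt (q.1.1 + q.1.2 * q.2.1) (q.1.1 + q.1.2 * q.2.2) := by fun_prop
  obtain ⟨N, hN⟩ := Dfn.nip (P := fun (γ p : K × K) => lt (γ.1 + γ.2 * p.1) (γ.1 + γ.2 * p.2)) d2
  have hE : VCle (EE lt) N := by
    intro A hA
    let a : Fin N → K × Kˣ := fun i => (A.equivFinOfCardEq hA).symm i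
    have := hN fun i => ((a i).1, ((a i).2 : K))
    push Not at this
    obtain ⟨A', hA'⟩ := this
    refine ⟨A.filter fun x => ∃ i ∈ A', a i = x, Finset.filter_subset _ _, fun p hp => ?_⟩
    obtain ⟨i, hi⟩ := hA' p
    have h1 := hp (a i) ((A.equivFinOfCardEq hA).symm i).2
    have h2 : (a i ∈ A.filter fun x => ∃ i ∈ A', a i = x) ↔ i ∈ A' := by
      rw [Finset.mem_filter]
      constructor
      · rintro ⟨-, j, hj, hji⟩
        rwa [← (A.equivFinOfCardEq hA).symm.injective (Subtype.ext hji)]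
      · exact fun h => ⟨((A.equivFinOfCardEq hA).symm i).2, i, h, rfl⟩
    have h3 : a i ∈ EE lt p ↔ lt ((a i).1 + (a i).2 * p.1) ((a i).1 + (a i).2 * p.2) := Iff.rfl
    tauto
  obtain ⟨r, hr, hinv, hlim⟩ := exists_limit_order lt N hE
  have hext : Ext S fun p : K × K => r p.1 p.2 := by
    refine ⟨K × K, inferInstance, fun p γ => lt (γ.1 + γ.2 * p.1) (γ.1 + γ.2 * p.2), by fun_prop,
      fun A hA => ?_⟩
    obtain ⟨γ, hγ⟩ := hlim A hA
    exact ⟨(γ.1, γ.2), fun p hp => (hγ p hp).symm⟩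
  let _inst : LinearOrder K := linearOrderOfSTO r
  have : IsOrderedAddMonoid K := ⟨fun a b hab c => by
    rcases hab.lt_or_eq with h | h
    · exact (show a + c < b + c from hinv _ _ c h).le
    · rw [h], fun a b hab c => by
    rcases hab.lt_or_eq with h | h
    · rw [add_comm c, add_comm c]; exact (show a + c < b + c from hinv _ _ c h).le
    · rw [h]⟩
  have h20 : (2 : K) ≠ 0 := by
    intro h
    have h11 : (1 : K) + 1 = 0 := by rw [one_add_one_eq_two, h]
    rcases lt_trichotomy (0 : K) 1 with h' | h' | h'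
    · exact (add_pos h' h').ne' h11
    · exact zero_ne_one h'
    · exact (add_neg h' h').ne h11
  have : DenselyOrdered K := ⟨fun a b hab => by
    have e : (b - a) / 2 + (b - a) / 2 = b - a := by field_simp; ring
    have hp : 0 < (b - a) / 2 := by
      by_contra hc
      have h3 := add_nonpos (not_lt.mp hc) (not_lt.mp hc)
      rw [e] at h3
      exact absurd (sub_pos.mpr hab) (not_lt.mpr h3)
    refine ⟨a + (b - a) / 2, lt_add_of_pos_right _ hp, ?_⟩
    have e2 : b = a + (b - a) / 2 + (b - a) / 2 := by rw [add_assoc, e]; ring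
    conv_rhs => rw [e2]
    exact lt_add_of_pos_right _ hp⟩
  let _e : Enc (shelah S) K := Enc.lift S K
  have : Fact (Dfn (shelah S) fun p : K × K => p.1 < p.2) := ⟨Df.dfn hext.df⟩
  have : Fact (Dfn (shelah S) fun p : K × K => p.1 + p.2) :=
    ⟨(Df.dfn (S := S) (P := fun q : (K × K) × K => q.1.1 + q.1.2 = q.2) hA.out).ext.df⟩
  exact zero_core (shelah S) K hz

end Pool.Agent.H994Z.NL
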