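import Mathlib
import Pool.Agent.H994Z.NL.Dim
import Pool.Agent.H994Z.NL.Pont
import Pool.Agent.H994Z.NL.Zero

set_option autoImplicit false

open Set Metric Filter Topology

namespace Pool.Agent.H994Z.NL

open Enc

variable {S : Sys}

theorem Noiseless.pos_dim (hN : Noiseless S) {K : Type} [Field K] [Enc S K]
    [Fact (Dfn S fun p : K × K => p.1 + p.2)] [Fact (Dfn S fun p : K × K => p.1 * p.2)]
    {d : ℕ} (hd0 : 0 < d) (h1 : Inj S K d) (hd : ¬ Inj S K (d + 1)) :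
    Nonempty (K ≃+* ℝ) ∨ Nonempty (K ≃+* ℂ) := by
  obtain ⟨u, hu, x0, r0, hr0, hi⟩ := h1
  let NN : (Fin d → ℝ) → ℝ → Set K := fun x r => {z | ∃ a ∈ ball x r, ∃ b ∈ ball x r, z = u a - u b}
  let BB : Set (Set K) := {N | ∃ x r, 0 < r ∧ ball x r ⊆ ball x0 r0 ∧ N = NN x r}
  have NNmono : ∀ {x r y s}, ball x r ⊆ ball y s → NN x r ⊆ NN y s := by
    rintro x r y s h _ ⟨a, ha, b, hb, rfl⟩
    exact ⟨a, h ha, b, h hb, rfl⟩
  have ab1 : ∀ N ∈ BB, ∀ v : (Fin d → ℝ) → K, Dfn S v → ∀ y0 r1, 0 < r1 →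
      ∃ y, ∃ ρ > 0, ball y ρ ⊆ ball y0 r1 ∧ ∀ a ∈ ball y ρ, ∀ b ∈ ball y ρ, v a - v b ∈ N := by
    rintro _ ⟨x, r, hr, hx, rfl⟩ v hv y0 r1 hr1
    exact hN.absorb hd u hu x r hr (hi.mono hx) v hv y0 r1 hr1
  have hint : ∀ N ∈ BB, ∀ N' ∈ BB, ∃ M ∈ BB, M ⊆ N ∩ N' := by
    rintro N hN _ ⟨x, r, hr, hx, rfl⟩
    obtain ⟨y, ρ, hρ, h1, h2⟩ := ab1 N hN u hu x r hr
    refine ⟨NN y ρ, ⟨y, ρ, hρ, h1.trans hx, rfl⟩, subset_inter ?_ (NNmono h1)⟩
    rintro _ ⟨a, ha, b, hb, rfl⟩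
    exact h2 a ha b hb
  have ab2 : ∀ N ∈ BB, ∀ v : (Fin d → ℝ) → (Fin d → ℝ) → K,
      (Dfn S fun p : (Fin d → ℝ) × (Fin d → ℝ) => v p.1 p.2) →
      ∃ M ∈ BB, ∀ z ∈ M, ∀ w ∈ M, ∃ a b a' b', z = u a - u b ∧ w = u a' - u b' ∧
        v a a' - v b b' ∈ N ∧ v a a' - v a b' ∈ N ∧ v b b' - v b a' ∈ N := by
    rintro _ ⟨x, r, hr, hx, rfl⟩ v hv
    obtain ⟨y, ρ, hρ, h1, h2⟩ := hN.absorb hd u hu x r hr (hi.mono hx)
      (fun w : Fin d ⊕ Fin d → ℝ => v (w ∘ Sum.inl) (w ∘ Sum.inr))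
      (hv.comp ((dfn_comp_index _).prodMk (dfn_comp_index _))) (Sum.elim x0 x0) r0 hr0
    have h3 : ∀ a ∈ ball (y ∘ Sum.inl) ρ, ∀ b ∈ ball (y ∘ Sum.inr) ρ, Sum.elim a b ∈ ball y ρ := by
      intro a ha b hb
      rw [mem_ball, dist_pi_lt_iff hρ] at *
      rintro (i | i)
      · exact ha i
      · exact hb i
    have h4 : ∀ a b, Sum.elim a b ∈ ball (Sum.elim x0 x0) r0 →
        a ∈ ball x0 r0 ∧ b ∈ ball x0 r0 := by
      intro a b h
      simp only [mem_ball, dist_pi_lt_iff hr0] at *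
      exact ⟨fun i => h (Sum.inl i), fun i => h (Sum.inr i)⟩
    obtain ⟨M, hM, h5⟩ := hint (NN (y ∘ Sum.inl) ρ)
      ⟨_, ρ, hρ, fun a ha => (h4 _ _ (h1 (h3 a ha _ (mem_ball_self hρ)))).1, rfl⟩
      (NN (y ∘ Sum.inr) ρ)
      ⟨_, ρ, hρ, fun a ha => (h4 _ _ (h1 (h3 _ (mem_ball_self hρ) a ha))).2, rfl⟩
    refine ⟨M, hM, fun z hz w hw => ?_⟩
    obtain ⟨a, ha, b, hb, rfl⟩ := (h5 hz).1
    obtain ⟨a', ha', b', hb', rfl⟩ := (h5 hw).2
    exact ⟨a, b, a', b', rfl, rfl, h2 _ (h3 a ha a' ha') _ (h3 b hb b' hb'),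
      h2 _ (h3 a ha a' ha') _ (h3 a ha b' hb'), h2 _ (h3 b hb b' hb') _ (h3 b hb a' ha')⟩
  have hadd : ∀ N ∈ BB, ∃ M ∈ BB, ∀ z ∈ M, ∀ w ∈ M, z + w ∈ N := by
    intro N hN
    obtain ⟨M, hM, h⟩ := ab2 N hN (fun a b => u a + u b) (by fun_prop)
    refine ⟨M, hM, fun z hz w hw => ?_⟩
    obtain ⟨a, b, a', b', rfl, rfl, h1, -⟩ := h z hz w hw
    convert h1 using 1
    ring
  have hsc : ∀ c : K, ∀ N ∈ BB, ∃ M ∈ BB, ∀ z ∈ M, c * z ∈ N := by
    intro c N hN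
    obtain ⟨y, ρ, hρ, h1, h2⟩ := ab1 N hN (fun a => c * u a) (by fun_prop) x0 r0 hr0
    refine ⟨NN y ρ, ⟨y, ρ, hρ, h1, rfl⟩, ?_⟩
    rintro _ ⟨a, ha, b, hb, rfl⟩
    rw [mul_sub]
    exact h2 a ha b hb
  let B : RingFilterBasis K :=
    { sets := BB
      nonempty := ⟨_, x0, r0, hr0, Subset.rfl, rfl⟩
      inter_sets := fun {N N'} h h' => hint N h N' h'
      zero' := by
        rintro _ ⟨x, r, hr, -, rfl⟩
        exact ⟨x, mem_ball_self hr, x, mem_ball_self hr, (sub_self _).symm⟩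
      add' := fun {N} h => by
        obtain ⟨M, hM, h1⟩ := hadd N h
        refine ⟨M, hM, ?_⟩
        rintro _ ⟨z, hz, w, hw, rfl⟩
        exact h1 z hz w hw
      neg' := fun {N} h => by
        obtain ⟨M, hM, h1⟩ := hsc (-1) N h
        exact ⟨M, hM, fun z hz => by simpa using h1 z hz⟩
      conj' := fun x {N} h => ⟨N, h, fun z hz => by simpa using hz⟩
      mul' := fun {N} h => by
        obtain ⟨N', hN', h1⟩ := hadd N h
        obtain ⟨M, hM, h2⟩ := ab2 N' hN' (fun a b => u a * u b) (by fun_prop)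
        refine ⟨M, hM, ?_⟩
        rintro _ ⟨z, hz, w, hw, rfl⟩
        obtain ⟨a, b, a', b', rfl, rfl, -, h3, h4⟩ := h2 z hz w hw
        convert h1 _ h3 _ h4 using 1
        ring
      mul_left' := fun c {N} h => hsc c N h
      mul_right' := fun c {N} h => by
        obtain ⟨M, hM, h1⟩ := hsc c N h
        exact ⟨M, hM, fun z hz => by simpa [mul_comm] using h1 z hz⟩ }
  let : TopologicalSpace K := B.topology
  have : IsTopologicalRing K := B.isTopologicalRing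
  have basis : (𝓝 (0 : K)).HasBasis (fun V => V ∈ BB) id :=
    B.toAddGroupFilterBasis.nhds_zero_hasBasis
  have : T2Space K := IsTopologicalAddGroup.t2Space_of_zero_sep fun c hc => by
    obtain ⟨δ, -, x, ρ, hρ, h1, h2, h3⟩ := hN.baire
      (fun δ (t : Fin d → ℝ) => ∀ t', dist t' t < δ → dist t' x0 < r0 → c ≠ u t' - u t)
      (by fun_prop) (fun δ δ' t _ h1 h2 s hs => h2 s (hs.trans_le h1)) x0 r0 hr0 (by
        intro y τ hτ hy
        refine ⟨y, mem_ball_self hτ, ?_⟩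
        by_cases h : ∃ t', dist t' x0 < r0 ∧ c = u t' - u y
        · obtain ⟨t', t1, t2⟩ := h
          refine ⟨dist t' y, dist_pos.mpr ?_, fun s s1 s2 s3 => ?_⟩
          · rintro rfl
            exact hc (by simpa using t2)
          · rw [hi s2 t1 (sub_left_injective (s3.symm.trans t2))] at s1
            exact lt_irrefl _ s1
        · exact ⟨1, one_pos, fun s _ s2 s3 => h ⟨s, s2, s3⟩⟩)
    refine ⟨NN x ρ, basis.mem_of_mem ⟨x, ρ, hρ, h2, rfl⟩, ?_⟩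
    rintro ⟨a, ha, b, hb, h⟩
    refine h3 b hb a ?_ (h2 ha) h
    have := dist_triangle_right a b x
    rw [mem_ball] at ha hb
    linarith
  obtain ⟨Q, hQ⟩ : ∃ Q : (Fin d → ℝ) → (Fin d → ℝ) → ℝ → Prop, Q = fun x y r => ∃ ε > 0, ∀ a,
      dist a x < ε → ∃ a', dist a' y < r ∧ ∃ b', dist b' y < r ∧ u a - u x = u a' - u b' :=
    ⟨_, rfl⟩
  have hQd : Dfn S fun p : ((Fin d → ℝ) × (Fin d → ℝ)) × ℝ => Q p.1.1 p.1.2 p.2 := by
    rw [hQ]; fun_prop
  have hQd' : ∀ {T : Type} [Enc S T] {a b : T → Fin d → ℝ} {c : T → ℝ}, Dfn S a → Dfn S b →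
      Dfn S c → Dfn S fun t => Q (a t) (b t) (c t) :=
    fun ha hb hc => hQd.comp ((ha.prodMk hb).prodMk hc)
  obtain ⟨j, x1, ρ, hρ, h2, h3⟩ := hN.cover
    (fun (j : Option (ℕ × ℚ)) (x : Fin d → ℝ) => j.elim
      (∀ y r, 0 < r → (∀ w, dist w y < r → dist w x0 < r0) → Q x y r) fun k =>
      (0 < (k.2 : ℝ) ∧ ball (TopologicalSpace.denseSeq (Fin d → ℝ) k.1) k.2 ⊆ ball x0 r0) ∧
        ¬ Q x (TopologicalSpace.denseSeq (Fin d → ℝ) k.1) k.2) (by
      rintro (_ | k)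
      · exact Dfn.forall (Dfn.forall (Dfn.imp (by fun_prop) (Dfn.imp (by fun_prop)
          (hQd' (by fun_prop) (by fun_prop) (by fun_prop)))))
      · exact Dfn.and (by fun_prop) (Dfn.not (hQd' (by fun_prop) (by fun_prop) (by fun_prop))))
    x0 r0 hr0 (by
      intro x _
      by_cases h : ∀ y r, 0 < r → (∀ w, dist w y < r → dist w x0 < r0) → Q x y r
      · exact ⟨none, h⟩
      push Not at h
      obtain ⟨y, r, hr, h1, h2⟩ := h
      obtain ⟨n, hn⟩ := (TopologicalSpace.denseRange_denseSeq (Fin d → ℝ)).exists_dist_lt y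
        (show 0 < r / 2 by linarith)
      obtain ⟨q, q1, q2⟩ := exists_rat_btwn (show 0 < r / 2 by linarith)
      have h3 : ball (TopologicalSpace.denseSeq (Fin d → ℝ) n) q ⊆ ball y r :=
        ball_subset_ball' (by rw [dist_comm]; linarith)
      refine ⟨some (n, q), ⟨q1, fun w hw => h1 w (h3 hw)⟩, fun h => h2 ?_⟩
      rw [hQ] at h ⊢
      obtain ⟨ε, hε, h⟩ := h
      refine ⟨ε, hε, fun a ha => ?_⟩
      obtain ⟨a', a1, b', b1, e⟩ := h a ha
      exact ⟨a', h3 a1, b', h3 b1, e⟩)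
  rcases j with _ | k
  swap
  · exfalso
    obtain ⟨⟨k1, k2⟩, -⟩ := h3 x1 (mem_ball_self hρ)
    obtain ⟨y, σ, hσ, h4, h5⟩ := ab1 _ ⟨_, _, k1, k2, rfl⟩ u hu x1 ρ hρ
    refine (h3 y (h4 (mem_ball_self hσ))).2 ?_
    rw [hQ]
    exact ⟨σ, hσ, fun a ha => h5 a ha y (mem_ball_self hσ)⟩
  have hsub : closedBall x1 (ρ / 2) ⊆ ball x1 ρ := closedBall_subset_ball (by linarith)
  have hcont : ContinuousOn u (closedBall x1 (ρ / 2)) := by
    intro x hx
    refine ContinuousAt.continuousWithinAt ?_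
    rw [ContinuousAt, ← tendsto_sub_nhds_zero_iff, basis.tendsto_right_iff]
    rintro _ ⟨y, r, hr, hy, rfl⟩
    have := h3 x (hsub hx) y r hr hy
    rw [hQ] at this
    obtain ⟨ε, hε, h⟩ := this
    exact mem_of_superset (ball_mem_nhds x hε) h
  have hc2 : ContinuousOn (fun p : (Fin d → ℝ) × (Fin d → ℝ) => u p.1 - u p.2)
      (closedBall x1 (ρ / 2) ×ˢ closedBall x1 (ρ / 2)) :=
    (hcont.comp continuousOn_fst fun _ h => h.1).sub (hcont.comp continuousOn_snd fun _ h => h.2)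
  have hp : (fun i => x1 i + ρ / 4) ∈ closedBall x1 (ρ / 2) := by
    rw [mem_closedBall, dist_pi_le_iff (by linarith)]
    intro i
    rw [Real.dist_eq, add_sub_cancel_left, abs_of_pos] <;> linarith
  have hx1 : x1 ∈ closedBall x1 (ρ / 2) := mem_closedBall_self (by linarith)
  refine pontryagin _ ?_ (((isCompact_closedBall _ _).prod (isCompact_closedBall _ _)).image_of_continuousOn hc2)
    (((convex_closedBall _ _).isPreconnected.prod (convex_closedBall _ _).isPreconnected).image _ hc2)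
    _ ⟨(_, x1), ⟨hp, hx1⟩, rfl⟩ fun h => ?_
  · refine mem_of_superset (basis.mem_of_mem (i := NN x1 (ρ / 2))
      ⟨x1, ρ / 2, by linarith, (ball_subset_closedBall.trans hsub).trans h2, rfl⟩) ?_
    rintro _ ⟨a, ha, b, hb, rfl⟩
    exact ⟨(a, b), ⟨ball_subset_closedBall ha, ball_subset_closedBall hb⟩, rfl⟩
  · have := congrFun (hi (h2 (hsub hp)) (h2 (hsub hx1)) (sub_eq_zero.mp h)) ⟨0, hd0⟩
    linarith

theorem Noiseless.field (hN : Noiseless S) {K : Type} [Field K] [Infinite K] [Enc S K]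
    [Fact (Dfn S fun p : K × K => p.1 + p.2)] [Fact (Dfn S fun p : K × K => p.1 * p.2)] :
    Nonempty (K ≃+* ℝ) ∨ Nonempty (K ≃+* ℂ) := by
  classical
  by_cases h1 : Inj S K 1
  · obtain ⟨n, hn⟩ := hN.inj_bound K
    have h2 : ∃ d, ¬ Inj S K (d + 1) := ⟨n, fun h => by have := hn _ h; omega⟩
    have h3 : Nat.find h2 ≠ 0 := fun h => by
      have := Nat.find_spec h2
      rw [h] at this
      exact this h1
    obtain ⟨d, hd⟩ := Nat.exists_eq_succ_of_ne_zero h3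
    refine hN.pos_dim (d := d + 1) (by omega)
      (not_not.mp (Nat.find_min h2 (show d < Nat.find h2 by omega))) ?_
    have := Nat.find_spec h2
    rwa [hd] at this
  · exfalso
    refine zero_dim S K fun k => ?_
    have he : Dfn S fun a : K => enc (S := S) a k := (Dfn.apply k).comp Dfn.enc
    obtain ⟨c, hc⟩ : ∃ c : K → ℝ, c = fun a => enc (S := S) a k := ⟨_, rfl⟩
    rw [← hc] at he
    have h2 : {x | ∃ a : K, enc (S := S) a k = x} = {x | ∃ a, c a = x} := by rw [hc]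
    rw [h2]
    refine (hN.real _ (by simp only [mem_ofPred_eq]; fun_prop)).resolve_left ?_
    rintro ⟨x, ε, hε, h⟩
    obtain ⟨f, f1, f2⟩ := hN.choice (fun (x : ℝ) (a : K) => c a = x) (by fun_prop)
    refine h1 ⟨fun y => f (y 0), by fun_prop, fun _ => x, ε, hε, fun a ha b hb e => ?_⟩
    have h3 := f2 _ (h (a 0) ((dist_le_pi_dist a _ 0).trans_lt ha))
    have h4 := f2 _ (h (b 0) ((dist_le_pi_dist b _ 0).trans_lt hb))
    have e' : f (a 0) = f (b 0) := e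
    funext i
    rw [Subsingleton.elim i 0, ← h3, ← h4, e']

end Pool.Agent.H994Z.NL
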