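import Mathlib
import Pool.Agent.H994Z.NL.Pos

set_option autoImplicit false

open Set FirstOrder FirstOrder.Language

namespace Pool.Agent.H994Z.NL

/-- The system of sets definable with parameters in a first order structure. -/
def ofLang (L : FirstOrder.Language.{0, 0}) [L.Structure ℝ]
    (hlt : Set.Definable (∅ : Set ℝ) L {v : Fin 2 → ℝ | v 0 < v 1})
    (hadd : Set.Definable (∅ : Set ℝ) L {v : Fin 3 → ℝ | v 0 + v 1 = v 2})
    (hnip : ∀ (m k : ℕ) (φ : L.Formula (Fin m ⊕ Fin k)), ∃ N : ℕ, ∀ a : Fin N → Fin m → ℝ,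
        ¬ ∀ S : Set (Fin N), ∃ b : Fin k → ℝ,
            ∀ i : Fin N, (φ.Realize (Sum.elim (a i) b) ↔ i ∈ S)) : Sys where
  D Y := Set.Definable (Set.univ : Set ℝ) L Y
  univ := definable_univ
  compl h := h.compl
  inter h h' := h.inter h'
  relabel g h := h.preimage_comp g
  ex h := h.exists_of_finite
  lt := hlt.mono (empty_subset _)
  add := hadd.mono (empty_subset _)
  const c := (Definable.singleton_of_mem L (mem_univ c)).preimage_comp (fun _ : Fin 1 => ())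
  nip := by
    intro α β _ _ Y hY
    obtain ⟨A, -, hA⟩ := definable_iff_finitely_definable.mp hY
    obtain ⟨φ, hφ⟩ := definable_iff_exists_formula_sum.mp hA
    obtain ⟨m, ⟨e1⟩⟩ := Finite.exists_equiv_fin α
    obtain ⟨k, ⟨e2⟩⟩ := Finite.exists_equiv_fin ((A : Set ℝ) ⊕ β)
    let g : (A : Set ℝ) ⊕ (α ⊕ β) → Fin m ⊕ Fin k := Sum.elim (fun a => Sum.inr (e2 (Sum.inl a)))
      (Sum.elim (fun a => Sum.inl (e1 a)) fun b => Sum.inr (e2 (Sum.inr b)))
    obtain ⟨N, hN⟩ := hnip m k (φ.relabel g)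
    refine ⟨N, fun a ha => hN (fun i => a i ∘ e1.symm) fun B => ?_⟩
    obtain ⟨b, hb⟩ := ha B
    refine ⟨Sum.elim (fun x : (A : Set ℝ) => (x : ℝ)) b ∘ e2.symm, fun i => ?_⟩
    rw [← hb i, hφ, Formula.realize_relabel, mem_ofPred_eq]
    refine iff_of_eq (congrArg φ.Realize ?_)
    funext x
    rcases x with x | x | x <;> simp [g]

theorem noiseless_of_fin (S : Sys) (h : ∀ (n : ℕ) (Y : Set (Fin n → ℝ)), S.D Y →
    (interior Y).Nonempty ∨ IsNowhereDense Y) : Noiseless S := by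
  intro α _ Y hY
  obtain ⟨n, ⟨e⟩⟩ := Finite.exists_equiv_fin α
  let f : (Fin n → ℝ) ≃ₜ (α → ℝ) :=
    { toFun := fun v => v ∘ e
      invFun := fun v => v ∘ e.symm
      left_inv := fun v => by ext; simp
      right_inv := fun v => by ext; simp
      continuous_toFun := continuous_pi fun _ => continuous_apply _
      continuous_invFun := continuous_pi fun _ => continuous_apply _ }
  rcases h n (f ⁻¹' Y) (S.relabel e hY) with h | h
  · left
    rw [← f.preimage_interior] at h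
    obtain ⟨x, hx⟩ := h
    exact ⟨f x, hx⟩
  · right
    rw [IsNowhereDense, ← f.preimage_closure, ← f.preimage_interior] at h
    rw [IsNowhereDense, eq_empty_iff_forall_notMem]
    intro x hx
    obtain ⟨y, rfl⟩ := f.surjective x
    exact (eq_empty_iff_forall_notMem.mp h) y hx

theorem interp {S : Sys} (hN : Noiseless S) (n : ℕ) (X : Set (Fin n → ℝ))
    (E : Set (Fin n ⊕ Fin n → ℝ)) (A Mu : Set (Fin n ⊕ Fin n ⊕ Fin n → ℝ))
    (hX : S.D X) (hE : S.D E) (hA : S.D A) (hM : S.D Mu)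
    (K : Type) [Field K] [Infinite K] (g : (Fin n → ℝ) → K) (h1 : g '' X = Set.univ)
    (h2 : ∀ a ∈ X, ∀ b ∈ X, (Sum.elim a b ∈ E ↔ g a = g b))
    (h3 : ∀ a ∈ X, ∀ b ∈ X, ∀ c ∈ X, (Sum.elim a (Sum.elim b c) ∈ A ↔ g a + g b = g c))
    (h4 : ∀ a ∈ X, ∀ b ∈ X, ∀ c ∈ X, (Sum.elim a (Sum.elim b c) ∈ Mu ↔ g a * g b = g c)) :
    Nonempty (K ≃+* ℝ) ∨ Nonempty (K ≃+* ℂ) := by
  obtain ⟨p, hp⟩ := hN.picks_fin n
  have dX := Dfn.of_D hX
  have dE := Dfn.of_D hE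
  have dA := Dfn.of_D hA
  have dM := Dfn.of_D hM
  obtain ⟨p1, p2⟩ := hp (Fin n → ℝ) (fun a b => b ∈ X ∧ Sum.elim a b ∈ E) (by fun_prop)
  have hs : ∀ x : K, ∃ a ∈ X, g a = x := fun x => (h1 ▸ mem_univ x : x ∈ g '' X)
  have e1 : ∀ a ∈ X, {b | b ∈ X ∧ Sum.elim a b ∈ E} = {b | b ∈ X ∧ g b = g a} := fun a ha =>
    Set.ext fun b => and_congr_right fun hb => (h2 a ha b hb).trans eq_comm
  let s : K → Fin n → ℝ := fun x => p {b | b ∈ X ∧ g b = x}
  have s1 : ∀ x, s x ∈ X ∧ g (s x) = x := by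
    intro x
    obtain ⟨a, ha, rfl⟩ := hs x
    have := p2 a ⟨a, ha, (h2 a ha a ha).mpr rfl⟩
    rw [e1 a ha] at this
    exact ⟨this.1, ((h2 a ha _ this.1).mp this.2).symm⟩
  have s2 : S.D (Set.range s) := by
    refine Dfn.to_D (Dfn.congr' (dX.and (p1.eq Dfn.id)) fun a => ?_)
    constructor
    · rintro ⟨ha, h⟩
      rw [e1 a ha] at h
      exact ⟨g a, h⟩
    · rintro ⟨x, rfl⟩
      refine ⟨(s1 x).1, ?_⟩
      rw [e1 _ (s1 x).1, (s1 x).2]
  let _e : Enc S K :=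
    { ι := Fin n
      fin := inferInstance
      enc := s
      inj := fun x y h => by rw [← (s1 x).2, h, (s1 y).2]
      rng := s2 }
  have ds : Dfn S s := Dfn.enc
  clear_value s
  have : Fact (Dfn S fun p : K × K => p.1 + p.2) := ⟨Dfn.of_graph (Dfn.congr'
    (f := fun q : (K × K) × K => Sum.elim (s q.1.1) (Sum.elim (s q.1.2) (s q.2)) ∈ A)
    (by fun_prop) fun q => by
      rw [h3 _ (s1 _).1 _ (s1 _).1 _ (s1 _).1, (s1 _).2, (s1 _).2, (s1 _).2])⟩
  have : Fact (Dfn S fun p : K × K => p.1 * p.2) := ⟨Dfn.of_graph (Dfn.congr'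
    (f := fun q : (K × K) × K => Sum.elim (s q.1.1) (Sum.elim (s q.1.2) (s q.2)) ∈ Mu)
    (by fun_prop) fun q => by
      rw [h4 _ (s1 _).1 _ (s1 _).1 _ (s1 _).1, (s1 _).2, (s1 _).2, (s1 _).2])⟩
  exact hN.field

end Pool.Agent.H994Z.NL
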